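import Pool.Agent.Q152.MS.Def

/-!
Job SEQ of project MS (helper152): many pairwise coprime odd numbers whose doubles are sums of two
consecutive primes and have no small multiples of this kind.
-/

set_option autoImplicit false

namespace Pool.Agent.Q154.MS.Seq

open Pool.Agent.Q152.MSD

/-- one step: a new number coprime to a given `T` -/
lemma step (h : AVOc) (C M T : ℕ) (hT : 1 ≤ T) (hM : M ≤ T) (hMT : M ∣ T) :
    ∃ t : ℕ, (Odd t ∧ 3 ≤ t ∧ Nat.Coprime t M ∧ (∃ p q : ℕ, M < p ∧ CP p q ∧ p + q = 2 * t) ∧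
      ∀ j : ℕ, 2 ≤ j → j ≤ C → ∀ q r : ℕ, CP q r → q + r ≠ j * (2 * t)) ∧ Nat.Coprime t T := by
  obtain ⟨p, d, hp, _, ⟨d', rfl⟩, hcp, hav⟩ := h C T (T + 3) hT
  have e2 : 2 * (p + 2 * T * d') = 2 * p + 4 * T * d' := by ring
  have hcop : Nat.Coprime (p + 2 * T * d') T := by
    have h1 : Nat.Coprime p T := by
      rw [hcp.1.coprime_iff_not_dvd]
      intro hd
      have := Nat.le_of_dvd (by omega) hd
      omega
    have e3 : p + 2 * T * d' = p + (2 * d') * T := by ring
    rw [e3]
    exact (Nat.coprime_add_mul_right_left p T (2 * d')).2 h1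
  have hodd : Odd (p + 2 * T * d') := by
    have h1 : Odd p := hcp.1.odd_of_ne_two (by omega)
    have h2 : Even (2 * T * d') := ⟨T * d', by ring⟩
    exact h1.add_even h2
  refine ⟨p + 2 * T * d', ⟨hodd, by omega, hcop.coprime_dvd_right hMT, ⟨p, p + 4 * T * d', by omega, hcp, ?_⟩, ?_⟩, hcop⟩
  · rw [e2]; ring
  · intro j h2 hj q r hqr
    rw [e2]
    exact hav j h2 hj q r hqr

/-- **SEQ** -/
theorem seq : St_SEQ := by
  intro h C M N hM
  induction N with
  | zero => exact ⟨fun i => i.elim0, fun i => i.elim0, fun i => i.elim0⟩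
  | succ N ih =>
    obtain ⟨t, ht, htc⟩ := ih
    have hprod : 1 ≤ ∏ i, t i := Finset.one_le_prod' (fun i _ => le_trans (by norm_num) (ht i).2.1)
    obtain ⟨s, hs, hsc⟩ := step h C M (M * ∏ i, t i) (Nat.mul_pos hM hprod)
      (Nat.le_mul_of_pos_right M hprod) (Dvd.intro _ rfl)
    have hsi : ∀ i, Nat.Coprime s (t i) := fun i =>
      hsc.coprime_dvd_right (Dvd.dvd.mul_left (Finset.dvd_prod_of_mem t (Finset.mem_univ i)) M)
    refine ⟨Fin.snoc (α := fun _ => ℕ) t s, ?_, ?_⟩
    · intro i
      refine Fin.lastCases ?_ (fun i => ?_) i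
      · simpa using hs
      · simpa using ht i
    · intro i
      refine Fin.lastCases ?_ (fun i => ?_) i
      · intro i'
        refine Fin.lastCases ?_ (fun i' => ?_) i'
        · intro hne; exact absurd rfl hne
        · intro _; simpa using hsi i'
      · intro i'
        refine Fin.lastCases ?_ (fun i' => ?_) i'
        · intro _; simpa using (hsi i).symm
        · intro hne
          simpa using htc i i' (fun e => hne (by rw [e]))

end Pool.Agent.Q154.MS.Seq
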