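import Mathlib
import Pool.Agent.TH396.PS.Key3

/-!
# Dilations of means on the integers

`dil n m` is the mean on the integers near `n b` if `m` is the mean for `b`.
-/

set_option autoImplicit false
set_option linter.unusedSectionVars false

open Filter Topology MeasureTheory
open scoped ENNReal

namespace Pool.Agent.Q154.MS

open Pool.Agent.TH396.PS

/-- the integers, written multiplicatively -/
abbrev Zm := Multiplicative ℤ

/-- the affine map `b ↦ n b + y` -/
def aff (n : ℕ) (y : ℤ) (b : Zm) : Zm := Multiplicative.ofAdd ((n : ℤ) * Multiplicative.toAdd b + y)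

theorem aff_shift (n : ℕ) (y : ℤ) (a b : Zm) :
    a * aff n y b = aff n (y + Multiplicative.toAdd a) b := by
  unfold aff
  apply Multiplicative.toAdd.injective
  simp only [toAdd_mul, toAdd_ofAdd]
  ring

theorem aff_mul (n : ℕ) (y : ℤ) (a b : Zm) :
    aff n y (a * b) = aff n (y + n * Multiplicative.toAdd a) b := by
  unfold aff
  apply Multiplicative.toAdd.injective
  simp only [toAdd_mul, toAdd_ofAdd]
  ring

theorem dil_aux (n : ℕ) (m : Mean Zm) (f : Zm → ℝ) (hf : Bdd f) (a : ℤ) :
    ∑ s ∈ Finset.range n, m.M (fun b => f (aff n (s + a) b)) =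
      ∑ s ∈ Finset.range n, m.M (fun b => f (aff n s b)) := by
  set h : ℤ → ℝ := fun y => m.M (fun b => f (aff n y b)) with hh
  have hper : ∀ y, h (y + n) = h y := by
    intro y
    have h1 := m.left' (Multiplicative.ofAdd 1) (fun b => f (aff n y b)) (hf.comp _)
    simp only [hh]
    rw [← h1]
    congr 1
    funext b
    rw [aff_mul]
    simp
  have step : ∀ a : ℤ, ∑ s ∈ Finset.range n, h (s + (a + 1)) = ∑ s ∈ Finset.range n, h (s + a) := by
    intro a
    have h1 := Finset.sum_range_succ (fun s : ℕ => h (s + a)) n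
    have h2 := Finset.sum_range_succ' (fun s : ℕ => h (s + a)) n
    have h3 : h ((n : ℤ) + a) = h a := by rw [add_comm]; exact hper a
    have h4 : ∑ s ∈ Finset.range n, h (((s + 1 : ℕ) : ℤ) + a) =
        ∑ s ∈ Finset.range n, h (s + (a + 1)) := by
      refine Finset.sum_congr rfl fun s _ => ?_
      congr 1
      push_cast
      ring
    rw [h4] at h2
    rw [h1, h3] at h2
    have h5 : h (((0 : ℕ) : ℤ) + a) = h a := by simp
    rw [h5] at h2
    linarith
  show ∑ s ∈ Finset.range n, h (s + a) = ∑ s ∈ Finset.range n, h s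
  induction a using Int.induction_on with
  | zero => simp
  | succ i ih => rw [step, ih]
  | pred i ih =>
    have := step (-(i : ℤ) - 1)
    rw [sub_add_cancel, ih] at this
    exact this.symm

/-- the mean on the integers near `n b` -/
noncomputable def dil (n : ℕ) (hn : 0 < n) (m : Mean Zm) : Mean Zm where
  M f := (∑ s ∈ Finset.range n, m.M (fun b => f (aff n s b))) / n
  add' f g hf hg := by
    have : ∀ s : ℕ, m.M (fun b => f (aff n s b) + g (aff n s b)) =
      m.M (fun b => f (aff n s b)) + m.M (fun b => g (aff n s b)) := fun s =>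
        m.add' _ _ (hf.comp _) (hg.comp _)
    simp only [this, Finset.sum_add_distrib, add_div]
  smul' c f hf := by
    have : ∀ s : ℕ, m.M (fun b => c * f (aff n s b)) = c * m.M (fun b => f (aff n s b)) := fun s =>
        m.smul' c _ (hf.comp _)
    simp only [this, ← Finset.mul_sum, mul_div_assoc]
  mono' f g hf hg h := by
    have hn' : (0 : ℝ) < n := by exact_mod_cast hn
    refine (div_le_div_iff_of_pos_right hn').2 (Finset.sum_le_sum fun s _ => ?_)
    exact m.mono' _ _ (hf.comp _) (hg.comp _) fun x => h _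
  const' c := by
    have hn' : (n : ℝ) ≠ 0 := by exact_mod_cast hn.ne'
    simp only [m.const', Finset.sum_const, Finset.card_range, nsmul_eq_mul]
    field_simp
  left' a f hf := by
    congr 1
    have h1 := dil_aux n m f hf (Multiplicative.toAdd a)
    rw [← h1]
    refine Finset.sum_congr rfl fun s _ => ?_
    congr 1
    funext b
    show f (a * aff n s b) = _
    rw [aff_shift]
  right' a f hf := by
    congr 1
    have h1 := dil_aux n m f hf (Multiplicative.toAdd a)
    rw [← h1]
    refine Finset.sum_congr rfl fun s _ => ?_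
    congr 1
    funext b
    show f (aff n s b * a) = _
    rw [mul_comm, aff_shift]
  approx' S hS hSb η hη := by
    classical
    have hn' : (0 : ℝ) < n := by exact_mod_cast hn
    obtain ⟨Q, hQ, hQ'⟩ := m.approx' (⋃ s ∈ Finset.range n, (fun f : Zm → ℝ => fun b => f (aff n s b)) '' S)
      (Set.Finite.biUnion (Finset.finite_toSet _) fun s _ => hS.image _) (by
        intro f hf
        simp only [Set.mem_iUnion] at hf
        obtain ⟨s, _, g, hg, rfl⟩ := hf
        exact (hSb g hg).comp _) η hη
    have hinj : Set.InjOn (fun q : ℕ × Zm => aff n q.1 q.2) ((Finset.range n ×ˢ Q : Finset _) : Set _) := by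
      rintro ⟨s, b⟩ h1 ⟨s', b'⟩ h2 h
      simp only [Finset.coe_product, Set.mem_prod, Finset.mem_coe, Finset.mem_range] at h1 h2
      have h3 : (n : ℤ) * Multiplicative.toAdd b + s = n * Multiplicative.toAdd b' + s' :=
        congrArg Multiplicative.toAdd h
      have h4 : ((n : ℤ) * Multiplicative.toAdd b + s) % n = s := by
        rw [add_comm, Int.add_mul_emod_self_left]
        exact Int.emod_eq_of_lt (by positivity) (by exact_mod_cast h1.1)
      have h5 : ((n : ℤ) * Multiplicative.toAdd b' + s') % n = s' := by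
        rw [add_comm, Int.add_mul_emod_self_left]
        exact Int.emod_eq_of_lt (by positivity) (by exact_mod_cast h2.1)
      have h6 : (s : ℤ) = s' := by rw [← h4, h3, h5]
      have h7 : s = s' := by exact_mod_cast h6
      subst h7
      have h8 : (n : ℤ) * Multiplicative.toAdd b = n * Multiplicative.toAdd b' := by linarith
      have h9 : Multiplicative.toAdd b = Multiplicative.toAdd b' :=
        mul_left_cancel₀ (by exact_mod_cast hn.ne') h8
      rw [Multiplicative.toAdd.injective h9]
    refine ⟨(Finset.range n ×ˢ Q).image (fun q => aff n q.1 q.2), ?_, fun f hf => ?_⟩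
    · rw [Finset.image_nonempty, Finset.nonempty_product]
      exact ⟨Finset.nonempty_range_iff.2 hn.ne', hQ⟩
    · have hQc : (0 : ℝ) < Q.card := by exact_mod_cast hQ.card_pos
      have h1 : avg ((Finset.range n ×ˢ Q).image (fun q => aff n q.1 q.2)) f =
          (∑ s ∈ Finset.range n, avg Q (fun b => f (aff n s b))) / n := by
        unfold avg
        rw [Finset.sum_image hinj, Finset.card_image_of_injOn hinj, Finset.card_product,
          Finset.card_range, Finset.sum_product, ← Finset.sum_div]
        push_cast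
        field_simp
      rw [h1, ← sub_div, ← Finset.sum_sub_distrib, abs_div, abs_of_pos hn', div_le_iff₀ hn']
      refine (Finset.abs_sum_le_sum_abs _ _).trans ?_
      calc ∑ s ∈ Finset.range n, |avg Q (fun b => f (aff n s b)) - m.M (fun b => f (aff n s b))|
          ≤ ∑ s ∈ Finset.range n, η := by
            refine Finset.sum_le_sum fun s hs => hQ' _ ?_
            simp only [Set.mem_iUnion]
            exact ⟨s, hs, f, hf, rfl⟩
        _ = η * n := by rw [Finset.sum_const, Finset.card_range, nsmul_eq_mul, mul_comm]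

theorem dil_M (n : ℕ) (hn : 0 < n) (m : Mean Zm) (f : Zm → ℝ) :
    (dil n hn m).M f = (∑ s ∈ Finset.range n, m.M (fun b => f (aff n s b))) / n := rfl

/-- the map `p ↦ n p + y` on ultrafilters -/
noncomputable def pm (n : ℕ) (y : ℤ) (p : Ultrafilter Zm) : Ultrafilter Zm := p.map (aff n y)

theorem pm_cont (n : ℕ) (y : ℤ) : Continuous (pm n y) := continuous_umap _

theorem pm_meas (n : ℕ) (y : ℤ) : Measurable (pm n y) := (pm_cont n y).measurable

theorem pm_shift (n : ℕ) (y : ℤ) (a : Zm) (p : Ultrafilter Zm) :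
    pm n y (uhomeo (Equiv.mulLeft a) p) = pm n (y + n * Multiplicative.toAdd a) p := by
  unfold pm
  rw [uhomeo_apply, Ultrafilter.map_map]
  congr 1
  funext b
  exact aff_mul n y a b

theorem shift_pm (n : ℕ) (y : ℤ) (a : Zm) (p : Ultrafilter Zm) :
    uhomeo (Equiv.mulLeft a) (pm n y p) = pm n (y + Multiplicative.toAdd a) p := by
  unfold pm
  rw [uhomeo_apply, Ultrafilter.map_map]
  congr 1
  funext b
  exact aff_shift n y a b

theorem pm_pure (n : ℕ) (y : ℤ) (b : Zm) : pm n y (pure b : Ultrafilter Zm) = pure (aff n y b) := by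
  unfold pm
  ext t
  simp

section measure

variable (n : ℕ) (hn : 0 < n) (m : Mean Zm)

instance instIR : (mu m).InnerRegular := inferInstance

theorem map_sum : ∑ s ∈ Finset.range n, (mu m).map (pm n s) = (n : ℝ≥0∞) • mu (dil n hn m) := by
  have hi : ∀ s : ℕ, ((mu m).map (pm n s)).InnerRegular := fun s =>
    Measure.InnerRegular.map_of_continuous (pm_cont n s)
  have hfin : ∀ s : ℕ, IsFiniteMeasure ((mu m).map (pm n s)) := fun s => inferInstance
  have h1 : IsFiniteMeasure (∑ s ∈ Finset.range n, (mu m).map (pm n s)) := inferInstance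
  have h2 : IsFiniteMeasure ((n : ℝ≥0∞) • mu (dil n hn m)) :=
    Measure.smul_finite _ (ENNReal.natCast_ne_top n)
  have h3 : (∑ s ∈ Finset.range n, (mu m).map (pm n s)).InnerRegular := inferInstance
  have h4 : ((n : ℝ≥0∞) • mu (dil n hn m)).InnerRegular := inferInstance
  have h5 : (∑ s ∈ Finset.range n, (mu m).map (pm n s)).Regular := inferInstance
  have h6 : ((n : ℝ≥0∞) • mu (dil n hn m)).Regular := inferInstance
  apply Measure.ext_of_integral_eq_on_compactlySupported
  intro φ
  have hc : Continuous (fun x => φ x) := φ.continuous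
  have hn' : (n : ℝ) ≠ 0 := by exact_mod_cast hn.ne'
  have hb : BM (fun x => φ x) := ⟨hc.measurable, bdd_of_continuous hc⟩
  rw [integral_finsetSum_measure (fun s _ => ?_)]
  · rw [integral_smul_measure, integral_mu (dil n hn m) hc, dil_M]
    simp only [ENNReal.toReal_natCast, smul_eq_mul]
    rw [mul_div_cancel₀ _ hn']
    refine Finset.sum_congr rfl fun s _ => ?_
    rw [integral_map (pm_meas n s).aemeasurable hc.aestronglyMeasurable]
    have hi' := integral_mu m (hc.comp (pm_cont n s))
    refine hi'.trans ?_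
    have e : (fun b : Zm => φ (pm n s (pure b))) = fun b => φ (pure (aff n s b)) := by
      funext b
      rw [pm_pure]
    exact congrArg m.M e
  · obtain ⟨C, hC⟩ := hb.bdd
    exact Integrable.of_bound hc.aestronglyMeasurable C (Eventually.of_forall fun x => by
      rw [Real.norm_eq_abs]; exact hC x)

theorem map_le (y : ℤ) : (mu m).map (pm n y) ≤ (n : ℝ≥0∞) • mu (dil n hn m) := by
  set s : ℕ := (y % n).toNat with hs
  have hn0 : (n : ℤ) ≠ 0 := by exact_mod_cast hn.ne'
  have hs0 : (s : ℤ) = y % n := Int.toNat_of_nonneg (Int.emod_nonneg _ hn0)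
  have hsn : s < n := by
    have := Int.emod_lt_of_pos y (by exact_mod_cast hn : (0 : ℤ) < n)
    rw [← hs0] at this
    exact_mod_cast this
  have h1 : pm n y = pm n s ∘ (uhomeo (Equiv.mulLeft (Multiplicative.ofAdd (y / n)))) := by
    funext p
    rw [Function.comp_apply, pm_shift, hs0, toAdd_ofAdd]
    congr 1
    have := Int.emod_add_mul_ediv y n
    linarith
  rw [h1, ← Measure.map_map (pm_meas n s) (uhomeo _).measurable, (mp_left m _).map_eq,
    ← map_sum n hn m]
  rw [Measure.le_iff]
  intro C hC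
  rw [Measure.finsetSum_apply]
  exact Finset.single_le_sum (f := fun s : ℕ => ((mu m).map (pm n s)) C) (fun _ _ => zero_le)
    (Finset.mem_range.2 hsn)

theorem int_sum {h : Ultrafilter Zm → ℝ} (hh : BM h) :
    ∑ s ∈ Finset.range n, ∫ p, h (pm n s p) ∂(mu m) = n * ∫ u, h u ∂(mu (dil n hn m)) := by
  have h1 : ∫ u, h u ∂((n : ℝ≥0∞) • mu (dil n hn m)) = n * ∫ u, h u ∂(mu (dil n hn m)) := by
    rw [integral_smul_measure]
    simp
  rw [← h1, ← map_sum n hn m, integral_finsetSum_measure (fun s _ => ?_)]
  · refine Finset.sum_congr rfl fun s _ => ?_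
    rw [integral_map (pm_meas n s).aemeasurable hh.meas.aestronglyMeasurable]
  · obtain ⟨C, hC⟩ := hh.bdd
    exact Integrable.of_bound hh.meas.aestronglyMeasurable C (Eventually.of_forall fun x => by
      rw [Real.norm_eq_abs]; exact hC x)

/-- integration against a weight, transported to the dilated mean -/
theorem push (y : ℤ) {φ : Ultrafilter Zm → ℝ} (hφ : BM φ) (h0 : ∀ p, 0 ≤ φ p) {K : ℝ}
    (hK : ∀ p, φ p ≤ K) :
    ∃ ψ : Ultrafilter Zm → ℝ, BM ψ ∧ (∀ u, 0 ≤ ψ u ∧ ψ u ≤ K * n) ∧
      ∀ h : Ultrafilter Zm → ℝ, BM h →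
        ∫ p, φ p * h (pm n y p) ∂(mu m) = ∫ u, ψ u * h u ∂(mu (dil n hn m)) := by
  have hK0 : 0 ≤ K := (h0 (pure 1)).trans (hK (pure 1))
  set w : Ultrafilter Zm → ℝ≥0∞ := fun p => ENNReal.ofReal (φ p) with hw
  have hwm : Measurable w := hφ.meas.ennreal_ofReal
  set ν := ((mu m).withDensity w).map (pm n y) with hν
  set c : ℝ≥0∞ := ENNReal.ofReal (K * n) with hc
  have hctop : c ≠ ∞ := ENNReal.ofReal_ne_top
  set ξ := c • mu (dil n hn m) with hξ
  have hξfin : IsFiniteMeasure ξ := Measure.smul_finite _ hctop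
  have hle : ν ≤ ξ := by
    have h1 : (mu m).withDensity w ≤ ENNReal.ofReal K • mu m := by
      rw [← withDensity_const]
      exact withDensity_mono (Eventually.of_forall fun p => ENNReal.ofReal_le_ofReal (hK p))
    have h2 : ν ≤ (ENNReal.ofReal K • mu m).map (pm n y) := Measure.map_mono h1 (pm_meas n y)
    refine h2.trans ?_
    rw [Measure.map_smul, hξ, hc, ENNReal.ofReal_mul hK0, ENNReal.ofReal_natCast, mul_smul]
    intro s
    have := map_le n hn m y s
    simp only [Measure.smul_apply, smul_eq_mul] at this ⊢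
    exact mul_le_mul_right this _
  have hνfin : IsFiniteMeasure ν := isFiniteMeasure_of_le ξ hle
  have hac : ν ≪ ξ := Measure.absolutelyContinuous_of_le hle
  have hone : ν.rnDeriv ξ ≤ᵐ[ξ] 1 := Measure.rnDeriv_le_one_of_le hle
  set ψ : Ultrafilter Zm → ℝ := fun u => K * n * min 1 ((ν.rnDeriv ξ u).toReal) with hψ
  have hKn : 0 ≤ K * n := by positivity
  have hψ01 : ∀ u, 0 ≤ ψ u ∧ ψ u ≤ K * n := by
    intro u
    have h1 : 0 ≤ min 1 ((ν.rnDeriv ξ u).toReal) := le_min zero_le_one ENNReal.toReal_nonneg
    have h2 : min 1 ((ν.rnDeriv ξ u).toReal) ≤ 1 := min_le_left _ _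
    constructor
    · exact mul_nonneg hKn h1
    · calc K * n * min 1 ((ν.rnDeriv ξ u).toReal) ≤ K * n * 1 := mul_le_mul_of_nonneg_left h2 hKn
        _ = K * n := mul_one _
  refine ⟨ψ, ⟨?_, Bdd.of_mem 0 (K * n) hψ01⟩, hψ01, fun h hh => ?_⟩
  · exact measurable_const.mul (measurable_const.min (Measure.measurable_rnDeriv ν ξ).ennreal_toReal)
  · have e1 : ∫ p, φ p * h (pm n y p) ∂(mu m) = ∫ u, h u ∂ν := by
      rw [hν, integral_map (pm_meas n y).aemeasurable hh.meas.aestronglyMeasurable,
        integral_withDensity_eq_integral_toReal_smul hwm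
          (Eventually.of_forall fun p => ENNReal.ofReal_lt_top)]
      refine integral_congr_ae (Eventually.of_forall fun p => ?_)
      simp only [hw, ENNReal.toReal_ofReal (h0 p), smul_eq_mul]
    have e2 : ∫ u, h u ∂ν = ∫ u, (ν.rnDeriv ξ u).toReal * h u ∂ξ := by
      rw [← integral_rnDeriv_smul hac]
      rfl
    have e3 : ∫ u, (ν.rnDeriv ξ u).toReal * h u ∂ξ =
        ∫ u, min 1 ((ν.rnDeriv ξ u).toReal) * h u ∂ξ := by
      refine integral_congr_ae ?_
      filter_upwards [hone] with u hu
      have : (ν.rnDeriv ξ u).toReal ≤ 1 := by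
        have h3 := ENNReal.toReal_mono ENNReal.one_ne_top hu
        simpa using h3
      rw [min_eq_right this]
    have e4 : ∫ u, min 1 ((ν.rnDeriv ξ u).toReal) * h u ∂ξ =
        K * n * ∫ u, min 1 ((ν.rnDeriv ξ u).toReal) * h u ∂(mu (dil n hn m)) := by
      rw [hξ, integral_smul_measure, hc, ENNReal.toReal_ofReal hKn, smul_eq_mul]
    rw [e1, e2, e3, e4, ← integral_const_mul]
    congr 1
    funext u
    simp only [hψ]
    ring

/-- domination -/
theorem int_le (y : ℤ) {h : Ultrafilter Zm → ℝ} (hh : BM h) (hh0 : ∀ u, 0 ≤ h u) :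
    ∫ p, h (pm n y p) ∂(mu m) ≤ n * ∫ u, h u ∂(mu (dil n hn m)) := by
  obtain ⟨ψ, hψ, hψ1, hψ2⟩ := push n hn m y (BM.const (X := Ultrafilter Zm) 1) (fun _ => zero_le_one)
    (K := 1) (fun _ => le_rfl)
  have h1 := hψ2 h hh
  simp only [one_mul] at h1
  rw [h1, ← integral_const_mul]
  apply integral_mono ((hψ.mul hh).integrable _) ((hh.integrable _).const_mul _)
  intro u
  have := (hψ1 u).2
  rw [one_mul] at this
  exact mul_le_mul_of_nonneg_right this (hh0 u)

end measure

end Pool.Agent.Q154.MS
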