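import Mathlib
import Pool.Agent.TH396.PS.Key3

/-!
# Sums of multiples: generalised sides

The bound of `Pool.Agent.TH396.PS.Key3` for general families of functions `F b p` in place of translates, for
a finite family of pairs of sides.
-/

set_option autoImplicit false
set_option linter.unusedSectionVars false

open Filter Topology MeasureTheory

namespace Pool.Agent.Q154.MS

open Pool.Agent.TH396.PS

variable {G : Type*} [Group G]

/-- data attached to one side -/
structure GSide (m : Mean G) (D : BIM G) where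
  F : G → Ultrafilter G → ℝ
  hF : ∀ b, BM (F b)
  F01 : ∀ b p, 0 ≤ F b p ∧ F b p ≤ 1
  Q : G → Ultrafilter G → ℝ
  hQ : ∀ b, BM (Q b)
  Q01 : ∀ b p, 0 ≤ Q b p ∧ Q b p ≤ 1
  wm : ∀ φ : Ultrafilter G → ℝ, BM φ → (∀ p, 0 ≤ φ p) →
    m.M (fun b => |∫ p, φ p * (F b p - Q b p) ∂(mu m)|) = 0
  lip : ∀ φ : Ultrafilter G → ℝ, BM φ → (∀ p, 0 ≤ φ p) → ∀ K : ℝ, (∀ p, φ p ≤ K) → ∀ b c : G,
    |∫ p, φ p * (Q b p - Q c p) ∂(mu m)| ≤ K * D.d b c

namespace GSide

variable {m : Mean G} {D : BIM G}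

theorem one_side (S : GSide m D) {φ : Ultrafilter G → ℝ} (hφ : BM φ) (h0 : ∀ p, 0 ≤ φ p)
    {K : ℝ} (hK : ∀ p, φ p ≤ K) (b c : G) :
    ∫ p, φ p * S.F b p ∂(mu m) ≤
      ∫ p, φ p * S.Q c p ∂(mu m) + K * D.d b c +
      |∫ p, φ p * (S.F b p - S.Q b p) ∂(mu m)| := by
  have i1 : Integrable (fun p => φ p * S.F b p) (mu m) := (hφ.mul (S.hF b)).integrable _
  have i2 : Integrable (fun p => φ p * S.Q b p) (mu m) := (hφ.mul (S.hQ b)).integrable _
  have i3 : Integrable (fun p => φ p * S.Q c p) (mu m) := (hφ.mul (S.hQ c)).integrable _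
  have h1 := S.lip φ hφ h0 K hK b c
  have e1 : ∫ p, φ p * (S.F b p - S.Q b p) ∂(mu m) =
      ∫ p, φ p * S.F b p ∂(mu m) - ∫ p, φ p * S.Q b p ∂(mu m) := by
    rw [← integral_sub i1 i2]
    congr 1
    funext p
    ring
  have e2 : ∫ p, φ p * (S.Q b p - S.Q c p) ∂(mu m) =
      ∫ p, φ p * S.Q b p ∂(mu m) - ∫ p, φ p * S.Q c p ∂(mu m) := by
    rw [← integral_sub i2 i3]
    congr 1
    funext p
    ring
  have h2 := le_abs_self (∫ p, φ p * (S.F b p - S.Q b p) ∂(mu m))
  have h3 := (le_abs_self _).trans h1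
  rw [e2] at h3
  rw [e1] at h2 ⊢
  linarith

end GSide

section claim1

variable {m : Mean G} {D : BIM G} [Infinite G]

theorem claim1 (S S' : GSide m D) (V : Set G) (E : Finset G)
    (Bad : Set (Ultrafilter G))
    (hbad : ∀ b ∈ V, b ∉ E → ∀ p ∈ Bad, (1 : ℝ) ≤ S.F b p + S'.F b p)
    {ρ : ℝ} (k : Kern m D ρ) (c : G) (hv : 0 < m.M (fun b => V.indicator 1 b * k.w (c⁻¹ * b)))
    {φ : Ultrafilter G → ℝ} (hφ : BM φ) (h0 : ∀ p, 0 ≤ φ p) {K : ℝ} (hK : ∀ p, φ p ≤ K)
    (hsupp : ∀ p ∉ Bad, φ p = 0) :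
    ∫ p, φ p ∂(mu m) ≤ ∫ p, φ p * S.Q c p ∂(mu m) + ∫ p, φ p * S'.Q c p ∂(mu m) +
      2 * K * ρ := by
  have hK0 : 0 ≤ K := (h0 (pure 1)).trans (hK (pure 1))
  have hKabs : ∀ p, |φ p| ≤ K := fun p => by rw [abs_of_nonneg (h0 p)]; exact hK p
  set α : G → ℝ := fun b => V.indicator 1 b * k.w (c⁻¹ * b) with hα
  have hVb : Bdd (V.indicator (1 : G → ℝ)) := by
    refine ⟨1, fun x => ?_⟩
    by_cases hx : x ∈ V <;> simp [hx]
  have hαb : Bdd α := hVb.mul (k.bdd_l c)
  have hα0 : ∀ b, 0 ≤ α b := fun b =>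
    mul_nonneg (Set.indicator_nonneg (fun _ _ => zero_le_one) _) (k.nonneg _)
  have hαB : ∀ b, α b ≤ k.B := by
    intro b
    by_cases hb : b ∈ V
    · simp only [hα, Set.indicator_of_mem hb, Pi.one_apply, one_mul]
      exact k.le _
    · simp only [hα, Set.indicator_of_notMem hb, zero_mul]
      exact k.Bnn
  set e : G → ℝ := fun b => |∫ p, φ p * (S.F b p - S.Q b p) ∂(mu m)| with he
  set e' : G → ℝ := fun b => |∫ p, φ p * (S'.F b p - S'.Q b p) ∂(mu m)| with he'
  have gen : ∀ T : GSide m D,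
      Bdd (fun b => |∫ p, φ p * (T.F b p - T.Q b p) ∂(mu m)|) := by
    intro T
    refine ⟨K, fun b => ?_⟩
    rw [abs_abs]
    have hi : BM (fun p => φ p * (T.F b p - T.Q b p)) := hφ.mul ((T.hF b).sub (T.hQ b))
    calc |∫ p, φ p * (T.F b p - T.Q b p) ∂(mu m)|
        ≤ ∫ p, |φ p * (T.F b p - T.Q b p)| ∂(mu m) := abs_integral_le_integral_abs
      _ ≤ ∫ p, K ∂(mu m) := by
          apply integral_mono (hi.integrable _).abs (integrable_const _)
          intro p
          show |φ p * (T.F b p - T.Q b p)| ≤ K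
          rw [abs_mul]
          have h1 : |T.F b p - T.Q b p| ≤ 1 := by
            have h3 := T.Q01 b p
            have h4 := T.F01 b p
            rw [abs_le]
            constructor <;> linarith
          calc |φ p| * |T.F b p - T.Q b p| ≤ K * 1 :=
                mul_le_mul (hKabs p) h1 (abs_nonneg _) hK0
            _ = K := mul_one K
      _ = K := by simp
  have heb : Bdd e := gen S
  have heb' : Bdd e' := gen S'
  set Y := ∫ p, φ p * S.Q c p ∂(mu m) + ∫ p, φ p * S'.Q c p ∂(mu m) with hY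
  set I := ∫ p, φ p ∂(mu m) with hI
  have hmain : m.M (fun b => I * α b) ≤
      m.M (fun b => (Y + 2 * K * ρ) * α b + k.B * (e b + e' b)) := by
    refine m.mono_off E (hαb.smul _) ((hαb.smul _).add ((heb.add heb').smul _)) (fun b hb => ?_)
    by_cases hα' : α b = 0
    · rw [hα', mul_zero, mul_zero, zero_add]
      exact mul_nonneg k.Bnn (add_nonneg (abs_nonneg _) (abs_nonneg _))
    · have hbV : b ∈ V := by
        by_contra hcon
        apply hα'
        simp only [hα, Set.indicator_of_notMem hcon, zero_mul]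
      have hw : k.w (c⁻¹ * b) ≠ 0 := fun h => hα' (by simp only [hα, h, mul_zero])
      have hd : D.d b c < ρ := by
        have := k.supp _ hw
        rwa [D.d_one_mul, D.symm] at this
      have i1 : Integrable (fun p => φ p * S.F b p) (mu m) := (hφ.mul (S.hF b)).integrable _
      have i2 : Integrable (fun p => φ p * S'.F b p) (mu m) := (hφ.mul (S'.hF b)).integrable _
      have h1 : I ≤ ∫ p, φ p * S.F b p ∂(mu m) + ∫ p, φ p * S'.F b p ∂(mu m) := by
        rw [← integral_add i1 i2]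
        apply integral_mono (hφ.integrable _) (i1.add i2)
        intro p
        show φ p ≤ φ p * S.F b p + φ p * S'.F b p
        rw [← mul_add]
        by_cases hp : p ∈ Bad
        · have := mul_le_mul_of_nonneg_left (hbad b hbV hb p hp) (h0 p)
          linarith
        · rw [hsupp p hp, zero_mul]
      have h2 := S.one_side hφ h0 hK b c
      have h3 := S'.one_side hφ h0 hK b c
      have h4 : I ≤ (Y + 2 * K * ρ) + (e b + e' b) := by
        have h5 : K * D.d b c ≤ K * ρ := mul_le_mul_of_nonneg_left hd.le hK0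
        have h6 : e b + e' b = |∫ p, φ p * (S.F b p - S.Q b p) ∂(mu m)| +
          |∫ p, φ p * (S'.F b p - S'.Q b p) ∂(mu m)| := rfl
        rw [h6, hY]
        linarith
      calc I * α b ≤ ((Y + 2 * K * ρ) + (e b + e' b)) * α b :=
            mul_le_mul_of_nonneg_right h4 (hα0 b)
        _ = (Y + 2 * K * ρ) * α b + α b * (e b + e' b) := by ring
        _ ≤ (Y + 2 * K * ρ) * α b + k.B * (e b + e' b) := by
            have : α b * (e b + e' b) ≤ k.B * (e b + e' b) :=
              mul_le_mul_of_nonneg_right (hαB b) (add_nonneg (abs_nonneg _) (abs_nonneg _))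
            linarith
  rw [m.smul' _ _ hαb, m.add' _ _ (hαb.smul _) ((heb.add heb').smul _), m.smul' _ _ hαb,
    m.smul' _ _ (heb.add heb'), m.add' _ _ heb heb', S.wm φ hφ h0, S'.wm φ hφ h0, add_zero, mul_zero,
    add_zero] at hmain
  have := le_of_mul_le_mul_right hmain hv
  rw [hY] at this
  linarith

end claim1

section main

variable {m : Mean G} {D : BIM G} [Infinite G]

/-- the smoothed value of a side -/
noncomputable def sv (S : GSide m D) {r : ℝ} (k : Kern m D r) (c : G) : ℝ :=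
  ∫ p, S.Q c p * k.W c p ∂(mu m)

theorem sv_mem (S : GSide m D) {r : ℝ} (k : Kern m D r) (c : G) : 0 ≤ sv S k c ∧ sv S k c ≤ 1 := by
  unfold sv
  constructor
  · exact integral_nonneg fun p => mul_nonneg (S.Q01 c p).1 (k.W_nonneg c p)
  · rw [← k.W_int c]
    apply integral_mono (((S.hQ c).mul (k.W_BM c)).integrable _) ((k.W_BM c).integrable _)
    intro p
    show S.Q c p * k.W c p ≤ k.W c p
    have := mul_le_mul_of_nonneg_right (S.Q01 c p).2 (k.W_nonneg c p)
    linarith

theorem sv_bdd (S : GSide m D) {r : ℝ} (k : Kern m D r) : Bdd (sv S k) :=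
  Bdd.of_mem 0 1 (fun c => sv_mem S k c)

theorem main_bound_aux (S S' : GSide m D) {ι : Type*} [Fintype ι]
    (ℓ : G → ι) (E : Finset G) (Bad : ι → Set (Ultrafilter G)) (hmeas : ∀ i, MeasurableSet (Bad i))
    (hsub : ∀ i, ∀ p ∈ Bad i, ℓ ⁻¹' {i} ∈ p)
    (hbad : ∀ i, ∀ b ∈ ℓ ⁻¹' {i}, b ∉ E → ∀ p ∈ Bad i, (1 : ℝ) ≤ S.F b p + S'.F b p)
    {r ρ : ℝ} (hρ : 0 < ρ) (k : Kern m D r) (kρ : Kern m D ρ) :
    ∑ i, (mu m).real (Bad i) ≤ m.M (sv S k) + m.M (sv S' k) + 2 * (Fintype.card ι) * k.B * ρ +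
      ∑ i, m.M (fun c => |kρ.sm ({p : Ultrafilter G | ℓ ⁻¹' {i} ∈ p}.indicator 1) c -
        k.sm ({p : Ultrafilter G | ℓ ⁻¹' {i} ∈ p}.indicator 1) c|) := by
  classical
  set Vb : ι → Set (Ultrafilter G) := fun i => {p : Ultrafilter G | ℓ ⁻¹' {i} ∈ p} with hVb
  have hVm : ∀ i, MeasurableSet (Vb i) := fun i => meas_basic _
  have smb : ∀ (s : ℝ) (κ : Kern m D s) (Z : Set (Ultrafilter G)), MeasurableSet Z →
      Bdd (fun c => κ.sm (Z.indicator 1) c) := by
    intro s κ Z hZ
    refine Bdd.of_mem 0 1 (fun c => κ.sm_mem (BM.ind hZ) (fun p => ?_) c)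
    by_cases hp : p ∈ Z <;> simp [hp]
  -- pointwise inequality
  have hpt : ∀ c, ∑ i, k.sm ((Bad i).indicator 1) c ≤
      sv S k c + sv S' k c + 2 * (Fintype.card ι) * k.B * ρ +
      ∑ i, |kρ.sm ((Vb i).indicator 1) c - k.sm ((Vb i).indicator 1) c| := by
    intro c
    set φ : ι → Ultrafilter G → ℝ := fun i p => (Bad i).indicator 1 p * k.W c p with hφ
    have hφBM : ∀ i, BM (φ i) := fun i => (BM.ind (hmeas i)).mul (k.W_BM c)
    have hφ0 : ∀ i p, 0 ≤ φ i p := fun i p =>
      mul_nonneg (Set.indicator_nonneg (fun _ _ => zero_le_one) _) (k.W_nonneg c p)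
    have hφle : ∀ i p, φ i p ≤ k.B := by
      intro i p
      by_cases hp : p ∈ Bad i
      · simp only [hφ, Set.indicator_of_mem hp, Pi.one_apply, one_mul]
        exact k.W_le c p
      · simp only [hφ, Set.indicator_of_notMem hp, zero_mul]
        exact k.Bnn
    have hφsupp : ∀ i, ∀ p ∉ Bad i, φ i p = 0 := by
      intro i p hp
      simp only [hφ, Set.indicator_of_notMem hp, zero_mul]
    have hφint : ∀ i, k.sm ((Bad i).indicator 1) c = ∫ p, φ i p ∂(mu m) := fun i => rfl
    have hVsm : ∀ (s : ℝ) (κ : Kern m D s) (i : ι), 0 ≤ κ.sm ((Vb i).indicator 1) c := by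
      intro s κ i
      refine (κ.sm_mem (BM.ind (hVm i)) (fun p => ?_) c).1
      by_cases hp : p ∈ Vb i <;> simp [hp]
    have hone : ∀ i, k.sm ((Bad i).indicator 1) c ≤
        ∫ p, φ i p * S.Q c p ∂(mu m) + ∫ p, φ i p * S'.Q c p ∂(mu m) +
        2 * k.B * ρ + |kρ.sm ((Vb i).indicator 1) c - k.sm ((Vb i).indicator 1) c| := by
      intro i
      have hnn1 : 0 ≤ ∫ p, φ i p * S.Q c p ∂(mu m) :=
        integral_nonneg fun p => mul_nonneg (hφ0 i p) (S.Q01 _ _).1
      have hnn2 : 0 ≤ ∫ p, φ i p * S'.Q c p ∂(mu m) :=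
        integral_nonneg fun p => mul_nonneg (hφ0 i p) (S'.Q01 _ _).1
      have hnn3 : 0 ≤ 2 * k.B * ρ := by have := k.Bnn; positivity
      rcases (hVsm ρ kρ i).lt_or_eq with h | h
      · rw [kρ.sm_ind] at h
        have := claim1 S S' (ℓ ⁻¹' {i}) E (Bad i) (hbad i) kρ c h (hφBM i) (hφ0 i) (hφle i)
          (hφsupp i)
        rw [hφint]
        have h2 := abs_nonneg (kρ.sm ((Vb i).indicator 1) c - k.sm ((Vb i).indicator 1) c)
        linarith
      · have h1 : k.sm ((Bad i).indicator 1) c ≤ k.sm ((Vb i).indicator 1) c := by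
          unfold Kern.sm
          apply integral_mono (((BM.ind (hmeas i)).mul (k.W_BM c)).integrable _)
            (((BM.ind (hVm i)).mul (k.W_BM c)).integrable _)
          intro p
          show (Bad i).indicator 1 p * k.W c p ≤ (Vb i).indicator 1 p * k.W c p
          apply mul_le_mul_of_nonneg_right _ (k.W_nonneg c p)
          by_cases hp : p ∈ Bad i
          · have hp' : p ∈ Vb i := hsub i p hp
            rw [Set.indicator_of_mem hp, Set.indicator_of_mem hp']
          · rw [Set.indicator_of_notMem hp]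
            exact Set.indicator_nonneg (fun _ _ => zero_le_one) _
        have h2 : k.sm ((Vb i).indicator 1) c ≤
            |kρ.sm ((Vb i).indicator 1) c - k.sm ((Vb i).indicator 1) c| := by
          rw [← h, zero_sub, abs_neg]
          exact le_abs_self _
        linarith
    have hsum : ∑ i, k.sm ((Bad i).indicator 1) c ≤
        ∑ i, (∫ p, φ i p * S.Q c p ∂(mu m) +
          ∫ p, φ i p * S'.Q c p ∂(mu m) +
        2 * k.B * ρ + |kρ.sm ((Vb i).indicator 1) c - k.sm ((Vb i).indicator 1) c|) :=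
      Finset.sum_le_sum fun i _ => hone i
    rw [Finset.sum_add_distrib, Finset.sum_add_distrib, Finset.sum_add_distrib] at hsum
    have hφsum : ∀ p, ∑ i, φ i p ≤ k.W c p := by
      intro p
      by_cases hex : ∃ i, p ∈ Bad i
      · obtain ⟨i, hi⟩ := hex
        rw [Finset.sum_eq_single i]
        · simp only [hφ, Set.indicator_of_mem hi, Pi.one_apply, one_mul]; exact le_rfl
        · intro j _ hj
          apply hφsupp
          intro hpj
          have h1 := hsub i p hi
          have h2 := hsub j p hpj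
          have h3 := Filter.inter_mem h1 h2
          have h4 : ℓ ⁻¹' {i} ∩ ℓ ⁻¹' {j} = ∅ := by
            ext x
            simp only [Set.mem_inter_iff, Set.mem_preimage, Set.mem_singleton_iff,
              Set.mem_empty_iff_false, iff_false, not_and]
            intro h5 h6
            exact hj (h6.symm.trans h5)
          rw [h4] at h3
          exact p.empty_notMem h3
        · intro h; exact absurd (Finset.mem_univ i) h
      · push Not at hex
        rw [Finset.sum_eq_zero (fun i _ => hφsupp i p (hex i))]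
        exact k.W_nonneg c p
    have gen : ∀ T : GSide m D,
        ∑ i, ∫ p, φ i p * T.Q c p ∂(mu m) ≤ sv T k c := by
      intro T
      unfold sv
      rw [← integral_finsetSum _ (fun i _ => ((hφBM i).mul (T.hQ c)).integrable _)]
      apply integral_mono (integrable_finsetSum _ (fun i _ => ((hφBM i).mul (T.hQ c)).integrable _))
        (((T.hQ c).mul (k.W_BM c)).integrable _)
      intro p
      show ∑ i, φ i p * T.Q c p ≤ T.Q c p * k.W c p
      rw [← Finset.sum_mul, mul_comm]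
      exact mul_le_mul_of_nonneg_left (hφsum p) (T.Q01 _ _).1
    have g1 := gen S
    have g2 := gen S'
    have hc : ∑ _i : ι, 2 * k.B * ρ = 2 * (Fintype.card ι) * k.B * ρ := by
      rw [Finset.sum_const, Finset.card_univ, nsmul_eq_mul]; ring
    rw [hc] at hsum
    linarith
  -- take the mean
  have hLHS : m.M (fun c => ∑ i, k.sm ((Bad i).indicator 1) c) = ∑ i, (mu m).real (Bad i) := by
    rw [m.sum _ (fun i _ => smb r k _ (hmeas i))]
    refine Finset.sum_congr rfl (fun i _ => ?_)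
    have := k.exchange ((Bad i).indicator 1) ((BM.ind (hmeas i)).integrable _)
    rw [integral_indicator_one (hmeas i)] at this
    exact this
  rw [← hLHS]
  have b1 := sv_bdd S k
  have b2 := sv_bdd S' k
  have b3 : ∀ i ∈ (Finset.univ : Finset ι), Bdd (fun c => |kρ.sm ((Vb i).indicator 1) c -
      k.sm ((Vb i).indicator 1) c|) := fun i _ => ((smb ρ kρ _ (hVm i)).sub (smb r k _ (hVm i))).abs
  refine (m.mono' _ _ (Bdd.sum _ fun i _ => smb r k _ (hmeas i))
    (((b1.add b2).add (Bdd.const _)).add (Bdd.sum _ b3)) hpt).trans ?_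
  rw [m.add' _ _ ((b1.add b2).add (Bdd.const _)) (Bdd.sum _ b3), m.add' _ _ (b1.add b2)
    (Bdd.const _), m.add' _ _ b1 b2, m.const', m.sum _ b3]

/-- the bound for a finite family of pairs of sides with one colouring -/
theorem main_bound {T : Type*} [Fintype T] (S S' : T → GSide m D) {ι : Type*} [Fintype ι]
    (ℓ : G → ι) (E : Finset G) (Bad : T → ι → Set (Ultrafilter G))
    (hmeas : ∀ t i, MeasurableSet (Bad t i))
    (hsub : ∀ t i, ∀ p ∈ Bad t i, ℓ ⁻¹' {i} ∈ p)
    (hbad : ∀ t i, ∀ b ∈ ℓ ⁻¹' {i}, b ∉ E → ∀ p ∈ Bad t i, (1 : ℝ) ≤ (S t).F b p + (S' t).F b p)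
    (ε : ℝ) (hS : ∀ (r : ℝ) (k : Kern m D r), ∑ t, (m.M (sv (S t) k) + m.M (sv (S' t) k)) ≤ ε) :
    ∑ t, ∑ i, (mu m).real (Bad t i) ≤ ε := by
  apply le_of_forall_pos_le_add
  intro κ₀ hκ₀
  set N : ℝ := (Fintype.card T : ℝ) with hN
  have hN0 : 0 ≤ N := Nat.cast_nonneg _
  set κ : ℝ := κ₀ / (N + 1) with hκdef
  have hκ : 0 < κ := by positivity
  set n : ℝ := (Fintype.card ι : ℝ) with hn
  have hn0 : 0 ≤ n := Nat.cast_nonneg _
  set Vb : ι → Set (Ultrafilter G) := fun i => {p : Ultrafilter G | ℓ ⁻¹' {i} ∈ p} with hVb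
  have hVm : ∀ i, MeasurableSet (Vb i) := fun i => meas_basic _
  have happ := fun i => approx_density m D ((Vb i).indicator 1) (BM.ind (hVm i))
    (κ / (8 * (n + 1))) (by positivity)
  choose f L hfb hL hfL using happ
  set Λ : ℝ := ∑ i, L i with hΛ
  have hΛ0 : 0 ≤ Λ := Finset.sum_nonneg fun i _ => hL i
  set r : ℝ := κ / (8 * (Λ + 1)) with hr
  have hrp : 0 < r := by positivity
  obtain ⟨k⟩ := Kern.exists_kern m D r hrp
  have hB := k.Bnn
  set ρ : ℝ := min r (κ / (8 * (n + 1) * (k.B + 1))) with hρdef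
  have hρ : 0 < ρ := lt_min hrp (by positivity)
  obtain ⟨kρ⟩ := Kern.exists_kern m D ρ hρ
  have h := fun t => main_bound_aux (S t) (S' t) ℓ E (Bad t) (hmeas t) (hsub t) (hbad t) hρ k kρ
  have smb : ∀ (s : ℝ) (κ : Kern m D s) (Z : Set (Ultrafilter G)), MeasurableSet Z →
      Bdd (fun c => κ.sm (Z.indicator 1) c) := by
    intro s κ Z hZ
    refine Bdd.of_mem 0 1 (fun c => κ.sm_mem (BM.ind hZ) (fun p => ?_) c)
    by_cases hp : p ∈ Z <;> simp [hp]
  have hterm : ∀ i, m.M (fun c => |kρ.sm ((Vb i).indicator 1) c - k.sm ((Vb i).indicator 1) c|) ≤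
      2 * (κ / (8 * (n + 1))) + 2 * (L i * r) := by
    intro i
    have c1 := hfL i ρ kρ
    have c2 := hfL i r k
    have bb1 := ((smb ρ kρ _ (hVm i)).sub (hfb i)).abs
    have bb2 := ((smb r k _ (hVm i)).sub (hfb i)).abs
    have : m.M (fun c => |kρ.sm ((Vb i).indicator 1) c - k.sm ((Vb i).indicator 1) c|) ≤
        m.M (fun c => |kρ.sm ((Vb i).indicator 1) c - f i c| +
          |k.sm ((Vb i).indicator 1) c - f i c|) := by
      refine m.mono' _ _ ((smb ρ kρ _ (hVm i)).sub (smb r k _ (hVm i))).abs (bb1.add bb2)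
        (fun c => ?_)
      have e : kρ.sm ((Vb i).indicator 1) c - k.sm ((Vb i).indicator 1) c =
        (kρ.sm ((Vb i).indicator 1) c - f i c) - (k.sm ((Vb i).indicator 1) c - f i c) := by ring
      rw [e]
      exact abs_sub _ _
    rw [m.add' _ _ bb1 bb2] at this
    have h3 : L i * ρ ≤ L i * r := mul_le_mul_of_nonneg_left (min_le_left _ _) (hL i)
    linarith
  have hsum : ∑ i, m.M (fun c => |kρ.sm ((Vb i).indicator 1) c - k.sm ((Vb i).indicator 1) c|) ≤
      n * (2 * (κ / (8 * (n + 1)))) + 2 * (Λ * r) := by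
    refine (Finset.sum_le_sum fun i _ => hterm i).trans ?_
    rw [Finset.sum_add_distrib, Finset.sum_const, Finset.card_univ, nsmul_eq_mul,
      ← Finset.mul_sum, ← Finset.sum_mul]
  have e1 : n * (2 * (κ / (8 * (n + 1)))) ≤ κ / 4 := by
    have : n * (2 * (κ / (8 * (n + 1)))) = (κ / 4) * (n / (n + 1)) := by field_simp; ring
    rw [this]
    have h1 : n / (n + 1) ≤ 1 := by rw [div_le_one (by positivity)]; linarith
    calc κ / 4 * (n / (n + 1)) ≤ κ / 4 * 1 := mul_le_mul_of_nonneg_left h1 (by positivity)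
      _ = κ / 4 := mul_one _
  have e2 : 2 * (Λ * r) ≤ κ / 4 := by
    have : 2 * (Λ * r) = (κ / 4) * (Λ / (Λ + 1)) := by rw [hr]; field_simp; ring
    rw [this]
    have h1 : Λ / (Λ + 1) ≤ 1 := by rw [div_le_one (by positivity)]; linarith
    calc κ / 4 * (Λ / (Λ + 1)) ≤ κ / 4 * 1 := mul_le_mul_of_nonneg_left h1 (by positivity)
      _ = κ / 4 := mul_one _
  have e3 : 2 * n * k.B * ρ ≤ κ / 4 := by
    have h1 : ρ ≤ κ / (8 * (n + 1) * (k.B + 1)) := min_le_right _ _
    have h2 : 2 * n * k.B * ρ ≤ 2 * n * k.B * (κ / (8 * (n + 1) * (k.B + 1))) :=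
      mul_le_mul_of_nonneg_left h1 (by positivity)
    refine h2.trans ?_
    have : 2 * n * k.B * (κ / (8 * (n + 1) * (k.B + 1))) =
      (κ / 4) * ((n / (n + 1)) * (k.B / (k.B + 1))) := by field_simp; ring
    rw [this]
    have h3 : n / (n + 1) ≤ 1 := by rw [div_le_one (by positivity)]; linarith
    have h4 : k.B / (k.B + 1) ≤ 1 := by rw [div_le_one (by positivity)]; linarith
    have h5 : (n / (n + 1)) * (k.B / (k.B + 1)) ≤ 1 * 1 :=
      mul_le_mul h3 h4 (by positivity) zero_le_one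
    calc κ / 4 * ((n / (n + 1)) * (k.B / (k.B + 1))) ≤ κ / 4 * (1 * 1) :=
          mul_le_mul_of_nonneg_left h5 (by positivity)
      _ = κ / 4 := by ring
  have h' : ∀ t, ∑ i, (mu m).real (Bad t i) ≤ (m.M (sv (S t) k) + m.M (sv (S' t) k)) + κ := by
    intro t
    have h1 : ∑ i, (mu m).real (Bad t i) ≤ m.M (sv (S t) k) + m.M (sv (S' t) k) +
      2 * n * k.B * ρ +
      ∑ i, m.M (fun c => |kρ.sm ((Vb i).indicator 1) c - k.sm ((Vb i).indicator 1) c|) := h t
    linarith
  have h2 : ∑ t, ∑ i, (mu m).real (Bad t i) ≤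
      ∑ t, ((m.M (sv (S t) k) + m.M (sv (S' t) k)) + κ) := Finset.sum_le_sum fun t _ => h' t
  rw [Finset.sum_add_distrib, Finset.sum_const, Finset.card_univ, nsmul_eq_mul] at h2
  have h3 := hS r k
  have h4 : N * κ ≤ κ₀ := by
    rw [hκdef, mul_div_assoc', div_le_iff₀ (by positivity)]
    nlinarith
  have h5 : (Fintype.card T : ℝ) * κ = N * κ := rfl
  linarith

end main

end Pool.Agent.Q154.MS
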