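import Mathlib
import Pool.Agent.Q154.MS.GS
import Pool.Agent.Q154.MS.Dil

/-!
# The sides `n p + r b + t`
-/

set_option autoImplicit false
set_option linter.unusedSectionVars false

open Filter Topology MeasureTheory
open scoped ENNReal

namespace Pool.Agent.Q154.MS

open Pool.Agent.TH396.PS

/-! ## Følner windows -/

/-- the window `[x, x + w)` -/
noncomputable def win (x : ℤ) (w : ℕ) : Finset Zm := (Finset.Ico x (x + w)).image Multiplicative.ofAdd

theorem win_card (x : ℤ) (w : ℕ) : (win x w).card = w := by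
  unfold win
  rw [Finset.card_image_of_injective _ Multiplicative.ofAdd.injective, Int.card_Ico]
  simp

theorem mem_win {x : ℤ} {w : ℕ} {b : Zm} :
    b ∈ win x w ↔ x ≤ Multiplicative.toAdd b ∧ Multiplicative.toAdd b < x + w := by
  unfold win
  rw [Finset.mem_image]
  constructor
  · rintro ⟨a, ha, rfl⟩
    exact Finset.mem_Ico.1 ha
  · intro h
    exact ⟨Multiplicative.toAdd b, Finset.mem_Ico.2 h, rfl⟩

theorem win_fol (x : ℕ → ℤ) (w : ℕ → ℕ) (hw : Tendsto w atTop atTop) (g : Zm) :
    Tendsto (fun N => ((((win (x N) (w N)).image (fun y => g * y)) ∩ win (x N) (w N)).card : ℝ) /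
      (win (x N) (w N)).card) atTop (𝓝 1) := by
  set a : ℤ := Multiplicative.toAdd g with ha
  have hw' : Tendsto (fun N => (w N : ℝ)) atTop atTop := tendsto_natCast_atTop_atTop.comp hw
  have hlow : ∀ N, (w N : ℝ) - |(a : ℝ)| ≤
      (((win (x N) (w N)).image (fun y => g * y)) ∩ win (x N) (w N)).card := by
    intro N
    have hsub : (Finset.Ico (x N + max a 0) (x N + w N + min a 0)).image Multiplicative.ofAdd ⊆
        ((win (x N) (w N)).image (fun y => g * y)) ∩ win (x N) (w N) := by
      intro b hb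
      rw [Finset.mem_image] at hb
      obtain ⟨z, hz, rfl⟩ := hb
      rw [Finset.mem_Ico] at hz
      have h1 := le_max_left a 0
      have h2 := le_max_right a 0
      have h3 := min_le_left a 0
      have h4 := min_le_right a 0
      rw [Finset.mem_inter, Finset.mem_image]
      refine ⟨⟨Multiplicative.ofAdd (z - a), ?_, ?_⟩, ?_⟩
      · rw [mem_win, toAdd_ofAdd]
        constructor <;> omega
      · apply Multiplicative.toAdd.injective
        simp only [toAdd_mul, toAdd_ofAdd]
        rw [← ha]; ring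
      · rw [mem_win, toAdd_ofAdd]
        constructor <;> omega
    have h1 := Finset.card_le_card hsub
    rw [Finset.card_image_of_injective _ Multiplicative.ofAdd.injective, Int.card_Ico] at h1
    have h2 : (w N : ℤ) - |a| ≤ ((x N + w N + min a 0 - (x N + max a 0)).toNat : ℤ) := by
      have h3 := Int.self_le_toNat (x N + w N + min a 0 - (x N + max a 0))
      have h4 : max a 0 - min a 0 = |a| := by
        rw [max_sub_min_eq_abs]
        simp
      linarith
    have h3 : (w N : ℤ) - |a| ≤ (((win (x N) (w N)).image (fun y => g * y)) ∩ win (x N) (w N)).card := by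
      refine h2.trans ?_
      exact_mod_cast h1
    exact_mod_cast h3
  have hup : ∀ N, ((((win (x N) (w N)).image (fun y => g * y)) ∩ win (x N) (w N)).card : ℝ) ≤
      (win (x N) (w N)).card := by
    intro N
    exact_mod_cast Finset.card_le_card Finset.inter_subset_right
  have hlim : Tendsto (fun N => 1 - |(a : ℝ)| / (w N : ℝ)) atTop (𝓝 1) := by
    have := (tendsto_const_nhds (x := |(a : ℝ)|)).div_atTop hw'
    simpa using this.const_sub 1
  refine tendsto_of_tendsto_of_tendsto_of_le_of_le' hlim tendsto_const_nhds ?_ ?_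
  · filter_upwards [hw'.eventually_gt_atTop 0] with N hN
    rw [win_card]
    rw [le_div_iff₀ hN, sub_mul, one_mul, div_mul_cancel₀ _ hN.ne']
    exact hlow N
  · filter_upwards [hw'.eventually_gt_atTop 0] with N hN
    have hc : (0 : ℝ) < (win (x N) (w N)).card := by rw [win_card]; exact hN
    rw [div_le_one hc]
    exact hup N

/-- two means agree on Lipschitz functions -/
theorem mean_unique (m m' : Mean Zm) (D : BIM Zm) (f : Zm → ℝ) (hf : Bdd f) (L : ℝ) (hL0 : 0 ≤ L)
    (hL : ∀ x y, |f x - f y| ≤ L * D.d x y) : m.M f = m'.M f := by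
  have hw : Tendsto (fun N : ℕ => N + 1) atTop atTop := tendsto_add_atTop_nat 1
  have hne : ∀ N : ℕ, (win 0 (N + 1)).Nonempty := by
    intro N
    rw [← Finset.card_pos, win_card]
    omega
  have hl := fun g => win_fol (fun _ => 0) (fun N => N + 1) hw g
  exact tendsto_nhds_unique
    (tendsto_avg_of_lip m D (fun N => win 0 (N + 1)) hne hl f hf L hL0 hL)
    (tendsto_avg_of_lip m' D (fun N => win 0 (N + 1)) hne hl f hf L hL0 hL)

/-- scaled metric -/
def scale {G : Type*} [Group G] (D : BIM G) (c : ℝ) (hc : 0 ≤ c) : BIM G where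
  d x y := c * D.d x y
  self x := by rw [D.self, mul_zero]
  symm x y := by rw [D.symm]
  tri x y z := by
    rw [← mul_add]
    exact mul_le_mul_of_nonneg_left (D.tri x y z) hc
  left a x y := by rw [D.left]
  right a x y := by rw [D.right]
  tb := D.tb.mono c hc fun x y => le_rfl

/-! ## The action of the multiples of `r` -/

/-- translations by `r b` -/
noncomputable def actR' (m₁ : Mean Zm) (r : ℕ) : MPAct Zm (mu m₁) where
  τ b := uhomeo (Equiv.mulLeft (b ^ r))
  mp b := mp_left m₁ (b ^ r)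
  mulc b c := b * c
  comp b c := by
    funext p
    show (p.map (fun x => b ^ r * x)).map (fun x => c ^ r * x) = p.map (fun x => (b * c) ^ r * x)
    rw [Ultrafilter.map_map]
    congr 1
    funext x
    simp only [Function.comp_apply]
    rw [mul_pow, ← mul_assoc, mul_comm (c ^ r)]
  one := by
    funext p
    show p.map (fun x => 1 ^ r * x) = p
    simp only [one_pow, one_mul]
    exact p.map_id'
  hmul := Or.inl fun _ _ => rfl

theorem cpt_full (m₁ : Mean Zm) (r : ℕ) (hr : 0 < r) (f : Lp ℝ 2 (mu m₁))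
    (hf : f ∈ (actR' m₁ r).act.cpt) : f ∈ (actL m₁).act.cpt := by
  rw [Act.mem_cpt] at hf ⊢
  apply TB.of_finite.{0, 0}
  intro ε hε
  obtain ⟨N, κ, hκ⟩ := hf ε hε
  have hr0 : (r : ℤ) ≠ 0 := by exact_mod_cast hr.ne'
  have hrp : (0 : ℤ) < r := by exact_mod_cast hr
  have hdec : ∀ x : Zm, x = (Multiplicative.ofAdd (Multiplicative.toAdd x / r)) ^ r *
      Multiplicative.ofAdd (Multiplicative.toAdd x % r) := by
    intro x
    apply Multiplicative.toAdd.injective
    simp only [toAdd_mul, toAdd_pow, toAdd_ofAdd, nsmul_eq_mul]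
    have := Int.mul_ediv_add_emod (Multiplicative.toAdd x) r
    linarith
  refine ⟨Fin N × Fin r, inferInstance, fun x => (κ (Multiplicative.ofAdd (Multiplicative.toAdd x / r)),
    ⟨(Multiplicative.toAdd x % r).toNat, ?_⟩), fun x y hxy => ?_⟩
  · have h1 := Int.emod_lt_of_pos (Multiplicative.toAdd x) hrp
    have h2 := Int.emod_nonneg (Multiplicative.toAdd x) hr0
    omega
  · have h1 : κ (Multiplicative.ofAdd (Multiplicative.toAdd x / r)) =
        κ (Multiplicative.ofAdd (Multiplicative.toAdd y / r)) := congrArg Prod.fst hxy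
    have h2 : (Multiplicative.toAdd x % r).toNat = (Multiplicative.toAdd y % r).toNat :=
      Fin.mk.inj_iff.1 (congrArg Prod.snd hxy)
    have h3 : Multiplicative.toAdd x % r = Multiplicative.toAdd y % r := by
      have h4 := Int.emod_nonneg (Multiplicative.toAdd x) hr0
      have h5 := Int.emod_nonneg (Multiplicative.toAdd y) hr0
      omega
    have h4 := hκ _ _ h1
    have key : ∀ z : Zm, (actL m₁).act.U z f =
        (actL m₁).act.U (Multiplicative.ofAdd (Multiplicative.toAdd z % r))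
          ((actR' m₁ r).act.U (Multiplicative.ofAdd (Multiplicative.toAdd z / r)) f) := by
      intro z
      have e1 : (actR' m₁ r).act.U (Multiplicative.ofAdd (Multiplicative.toAdd z / r)) f =
        (actL m₁).act.U ((Multiplicative.ofAdd (Multiplicative.toAdd z / r)) ^ r) f := rfl
      rw [e1, (actL m₁).act.comp]
      have e2 : (actL m₁).act.mulc (Multiplicative.ofAdd (Multiplicative.toAdd z % r))
        ((Multiplicative.ofAdd (Multiplicative.toAdd z / r)) ^ r) =
        (Multiplicative.ofAdd (Multiplicative.toAdd z / r)) ^ r *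
          Multiplicative.ofAdd (Multiplicative.toAdd z % r) := rfl
      rw [e2, ← hdec z]
    show ‖(actL m₁).act.U x f - (actL m₁).act.U y f‖ < ε
    rw [key x, key y, h3, ← map_sub, ((actL m₁).act.U _).norm_map]
    exact h4

section side

variable (m : Mean Zm) (n r : ℕ) (hn : 0 < n)

/-- transported smoothing -/
noncomputable def V {D : BIM Zm} {ρ : ℝ} (k : Kern m D ρ) (q : Ultrafilter Zm → ℝ) (x : Zm) : ℝ :=
  ∫ p, q (pm n (Multiplicative.toAdd x) p) * k.W 1 p ∂(mu m)

theorem W_shift {D : BIM Zm} {ρ : ℝ} (k : Kern m D ρ) (c : Zm) (p : Ultrafilter Zm) :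
    k.W c (uhomeo (Equiv.mulLeft c) p) = k.W 1 p := by
  show ext (fun s => k.w (c⁻¹ * s)) (p.map (fun x => c * x)) = ext (fun s => k.w (1⁻¹ * s)) p
  rw [ext_map]
  congr 1
  funext s
  congr 1
  group

theorem tr {D : BIM Zm} {ρ : ℝ} (k : Kern m D ρ) {q : Ultrafilter Zm → ℝ} (hq : BM q) (y : ℤ) (c : Zm) :
    ∫ p, q (pm n y p) * k.W c p ∂(mu m) =
      V m n k q (Multiplicative.ofAdd (y + n * Multiplicative.toAdd c)) := by
  unfold V
  have h2 := mp_left m c
  have hB : BM (fun p => q (pm n y p) * k.W c p) := (hq.comp (pm_meas n y)).mul (k.W_BM c)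
  have h3 := integral_map (μ := mu m) h2.measurable.aemeasurable
    (f := fun p => q (pm n y p) * k.W c p) hB.meas.aestronglyMeasurable
  rw [h2.map_eq] at h3
  rw [h3]
  congr 1
  funext p
  rw [W_shift, pm_shift, toAdd_ofAdd]

end side

/-- the two facts needed about the positions `n p + r b + t` -/
theorem exists_family (m : Mean Zm) (n r : ℕ) (hn : 0 < n) (hr : 0 < r) (E : Set Zm) :
    ∃ D : BIM Zm, ∀ D' : BIM Zm, (∀ b c, D.d b c ≤ D'.d b c) → ∃ S : ℤ → GSide m D',
      (∀ t b p, (S t).F b p =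
        ({u : Ultrafilter Zm | E ∈ u}.indicator 1 : Ultrafilter Zm → ℝ) (pm n (t + r * Multiplicative.toAdd b) p)) ∧
      ∀ (ρ : ℝ) (k : Kern m D' ρ),
        ∑ t ∈ Finset.range (n + r), m.M (sv (S t) k) = (n + r) * (dil n hn m).M (E.indicator 1) := by
  set C : Set (Ultrafilter Zm) := {u : Ultrafilter Zm | E ∈ u} with hC
  have hCm : MeasurableSet C := meas_basic E
  set m₁ := dil n hn m with hm₁
  set t₀ := actR' m₁ r with ht₀
  obtain ⟨q, hq, q01, hqi, hqc, hqw⟩ := t₀.compact_part m C hCm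
  have hnn : (0 : ℝ) ≤ n := Nat.cast_nonneg n
  set D := scale (t₀.act.bim _ hqc) n hnn with hD
  refine ⟨D, fun D' hDD' => ?_⟩
  have hpos : ∀ (t : ℤ) (b : Zm) (p : Ultrafilter Zm),
      pm n (t + r * Multiplicative.toAdd b) p = t₀.τ b (pm n t p) := by
    intro t b p
    have h1 : t₀.τ b (pm n t p) = uhomeo (Equiv.mulLeft (b ^ r)) (pm n t p) := rfl
    rw [h1, shift_pm, toAdd_pow, nsmul_eq_mul]
  have hind : ∀ u : Ultrafilter Zm, 0 ≤ (C.indicator 1 : Ultrafilter Zm → ℝ) u ∧
      (C.indicator 1 : Ultrafilter Zm → ℝ) u ≤ 1 := by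
    intro u
    by_cases hu : u ∈ C <;> simp [hu]
  have hwm : ∀ t : ℤ, ∀ φ : Ultrafilter Zm → ℝ, BM φ → (∀ p, 0 ≤ φ p) →
      m.M (fun b => |∫ p, φ p * ((C.indicator 1 : Ultrafilter Zm → ℝ) (pm n (t + r * Multiplicative.toAdd b) p) -
        q (pm n (t + r * Multiplicative.toAdd b) p)) ∂(mu m)|) = 0 := by
    intro t φ hφ h0
    obtain ⟨K, hK⟩ := hφ.bdd
    obtain ⟨ψ, hψ, _, hψ2⟩ := push n hn m t hφ h0 (K := K) (fun p => (le_abs_self _).trans (hK p))
    rw [← hqw ψ hψ]
    refine congrArg m.M (funext fun b => congrArg abs ?_)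
    have h1 := hψ2 (fun u => (C.indicator 1 : Ultrafilter Zm → ℝ) (t₀.τ b u) - q (t₀.τ b u))
      (((BM.ind hCm).sub hq).comp (t₀.mp b).measurable)
    rw [← h1]
    refine integral_congr_ae (Eventually.of_forall fun p => ?_)
    beta_reduce
    rw [hpos]
  have hlip : ∀ t : ℤ, ∀ φ : Ultrafilter Zm → ℝ, BM φ → (∀ p, 0 ≤ φ p) → ∀ K : ℝ, (∀ p, φ p ≤ K) →
      ∀ b c : Zm, |∫ p, φ p * (q (pm n (t + r * Multiplicative.toAdd b) p) -
        q (pm n (t + r * Multiplicative.toAdd c) p)) ∂(mu m)| ≤ K * D'.d b c := by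
    intro t φ hφ h0 K hK b c
    have hK0 : 0 ≤ K := (h0 (pure 1)).trans (hK (pure 1))
    obtain ⟨ψ, hψ, hψ1, hψ2⟩ := push n hn m t hφ h0 hK
    have h1 := hψ2 (fun u => q (t₀.τ b u) - q (t₀.τ c u))
      ((hq.comp (t₀.mp b).measurable).sub (hq.comp (t₀.mp c).measurable))
    have h2 : ∫ p, φ p * (q (pm n (t + r * Multiplicative.toAdd b) p) -
        q (pm n (t + r * Multiplicative.toAdd c) p)) ∂(mu m) =
        inner ℝ (toL (mu m₁) hψ) (t₀.act.U b (toL (mu m₁) hq) - t₀.act.U c (toL (mu m₁) hq)) := by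
      rw [t₀.U_toL, t₀.U_toL, toL_sub, inner_toL, ← h1]
      congr 1
      funext p
      rw [hpos, hpos]
    rw [h2]
    refine (abs_real_inner_le_norm _ _).trans ?_
    have h3 : ‖toL (mu m₁) hψ‖ ≤ K * n := norm_toL_le (mu m₁) hψ (fun u => by
      rw [abs_of_nonneg (hψ1 u).1]; exact (hψ1 u).2) (mul_nonneg hK0 hnn)
    have h4 := t₀.act.le_dist' (toL (mu m₁) hq) b c
    have h5 : D.d b c = n * t₀.act.dist (toL (mu m₁) hq) b c := rfl
    calc ‖toL (mu m₁) hψ‖ * ‖t₀.act.U b (toL (mu m₁) hq) - t₀.act.U c (toL (mu m₁) hq)‖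
        ≤ (K * n) * t₀.act.dist (toL (mu m₁) hq) b c :=
          mul_le_mul h3 h4 (norm_nonneg _) (mul_nonneg hK0 hnn)
      _ = K * D.d b c := by rw [h5]; ring
      _ ≤ K * D'.d b c := mul_le_mul_of_nonneg_left (hDD' b c) hK0
  refine ⟨fun t =>
    { F := fun b p => C.indicator 1 (pm n (t + r * Multiplicative.toAdd b) p)
      hF := fun b => (BM.ind hCm).comp (pm_meas n _)
      F01 := fun b p => hind _
      Q := fun b p => q (pm n (t + r * Multiplicative.toAdd b) p)
      hQ := fun b => hq.comp (pm_meas n _)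
      Q01 := fun b p => q01 _
      wm := hwm t
      lip := hlip t }, fun t b p => rfl, fun ρ k => ?_⟩
  -- the averages of the smoothed values
  have hsv : ∀ (t : ℕ) (c : Zm), ∫ p, q (pm n ((t : ℤ) + r * Multiplicative.toAdd c) p) * k.W c p ∂(mu m) =
      V m n k q (aff (n + r) t c) := by
    intro t c
    rw [tr m n k hq]
    congr 1
    unfold aff
    congr 1
    push_cast
    ring
  have hVb : Bdd (V m n k q) := by
    refine ⟨1, fun x => ?_⟩
    unfold V
    have hBM : BM (fun p => q (pm n (Multiplicative.toAdd x) p) * k.W 1 p) :=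
      (hq.comp (pm_meas n _)).mul (k.W_BM 1)
    rw [abs_of_nonneg (integral_nonneg fun p => mul_nonneg (q01 _).1 (k.W_nonneg 1 p)), ← k.W_int 1]
    apply integral_mono (hBM.integrable _) ((k.W_BM 1).integrable _)
    intro p
    show q (pm n (Multiplicative.toAdd x) p) * k.W 1 p ≤ k.W 1 p
    have := mul_le_mul_of_nonneg_right (q01 (pm n (Multiplicative.toAdd x) p)).2 (k.W_nonneg 1 p)
    linarith
  have hfull : toL (mu m₁) hq ∈ (actL m₁).act.cpt := cpt_full m₁ r hr _ hqc
  set Df := (actL m₁).act.bim _ hfull with hDf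
  obtain ⟨ψ, hψ, hψ1, hψ2⟩ := push n hn m 0 (k.W_BM 1) (k.W_nonneg 1) (k.W_le 1)
  have hVlip : ∀ x y, |V m n k q x - V m n k q y| ≤ (k.B * n) * Df.d x y := by
    intro x y
    have hV : ∀ z : Zm, V m n k q z = inner ℝ (toL (mu m₁) hψ) ((actL m₁).act.U z (toL (mu m₁) hq)) := by
      intro z
      have h1 := hψ2 (fun u => q ((actL m₁).τ z u)) (hq.comp ((actL m₁).mp z).measurable)
      rw [(actL m₁).U_toL, inner_toL, ← h1]
      unfold V
      congr 1
      funext p
      have h2 : (actL m₁).τ z (pm n 0 p) = pm n (0 + Multiplicative.toAdd z) p := shift_pm n 0 z p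
      rw [h2, zero_add, mul_comm]
    rw [hV x, hV y, ← inner_sub_right]
    refine (abs_real_inner_le_norm _ _).trans ?_
    have h3 : ‖toL (mu m₁) hψ‖ ≤ k.B * n := norm_toL_le (mu m₁) hψ (fun u => by
      rw [abs_of_nonneg (hψ1 u).1]; exact (hψ1 u).2) (mul_nonneg k.Bnn hnn)
    exact mul_le_mul h3 ((actL m₁).act.le_dist' (toL (mu m₁) hq) x y) (norm_nonneg _)
      (mul_nonneg k.Bnn hnn)
  have hN : 0 < n + r := by omega
  have hNr : ((n + r : ℕ) : ℝ) ≠ 0 := by exact_mod_cast hN.ne'
  have hnr : (n : ℝ) ≠ 0 := by exact_mod_cast hn.ne'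
  have e1 : ∑ t ∈ Finset.range (n + r), m.M (fun c => V m n k q (aff (n + r) t c)) =
      (n + r) * (dil (n + r) hN m).M (V m n k q) := by
    rw [dil_M]
    push_cast at hNr ⊢
    field_simp
  have e2 : (dil (n + r) hN m).M (V m n k q) = m₁.M (V m n k q) :=
    mean_unique _ _ Df _ hVb _ (mul_nonneg k.Bnn hnn) hVlip
  have e3 : m₁.M (V m n k q) = (∑ s ∈ Finset.range n, ∫ p, q (pm n s p) ∂(mu m)) / n := by
    rw [hm₁, dil_M]
    congr 1
    refine Finset.sum_congr rfl fun s _ => ?_
    have h1 : (fun b => V m n k q (aff n s b)) = k.sm (fun p => q (pm n s p)) := by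
      funext b
      unfold Kern.sm
      rw [tr m n k hq]
      congr 1
      unfold aff
      congr 1
      ring
    rw [h1]
    exact k.exchange _ ((hq.comp (pm_meas n s)).integrable _)
  have e4 : ∑ s ∈ Finset.range n, ∫ p, q (pm n s p) ∂(mu m) = n * m₁.M (E.indicator 1) := by
    rw [int_sum n hn m hq, hqi, mu_basic]
  have e5 : ∀ t ∈ Finset.range (n + r), m.M (fun c => ∫ p, q (pm n ((t : ℤ) + r * Multiplicative.toAdd c) p) *
      k.W c p ∂(mu m)) = m.M (fun c => V m n k q (aff (n + r) t c)) := by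
    intro t _
    exact congrArg m.M (funext fun c => hsv t c)
  show ∑ t ∈ Finset.range (n + r), m.M (fun c => ∫ p, q (pm n ((t : ℤ) + r * Multiplicative.toAdd c) p) *
      k.W c p ∂(mu m)) = _
  rw [Finset.sum_congr rfl e5, e1, e2, e3, e4]
  field_simp

end Pool.Agent.Q154.MS
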