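import Mathlib
import Pool.Agent.TH396.PS.Key4
import Pool.Agent.Q154.MS.Sd

/-!
# The combinatorial theorem for means

If the exceptional set `E` has densities `d₁` near `l b` and `d₂` near `r b` (with respect to a mean for `b`), then
`(l + r) (d₁ + d₂) < |τ|`, `τ ⊆ [0, l + r)`, gives `t ∈ τ` and an infinite set `B` such that `r b + l b' + t` is not in `E` for
distinct `b`, `b'` in `B`.
-/

set_option autoImplicit false
set_option linter.unusedSectionVars false

open Filter Topology MeasureTheory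
open scoped ENNReal

namespace Pool.Agent.Q154.MS

open Pool.Agent.TH396.PS

/-- positive integers -/
def Pos : Set Zm := {x | 0 < Multiplicative.toAdd x}

/-- the set of `x` with `l x + y ∉ E` -/
def off (E : Set Zm) (l : ℕ) (y : ℤ) : Set Zm := {x | aff l y x ∉ E}

/-- the good ultrafilters for a finite window `H` -/
def good (E : Set Zm) (l r : ℕ) (t : ℤ) (H : Finset Zm) : Set (Ultrafilter Zm) :=
  {p | Pos ∈ p ∧ ∃ b, b ∉ H ∧ b ∈ Pos ∧
    (∀ h ∈ H, (off E l (t + r * Multiplicative.toAdd h) ∈ p → b ∈ off E l (t + r * Multiplicative.toAdd h)) ∧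
      (off E r (t + l * Multiplicative.toAdd h) ∈ p → b ∈ off E r (t + l * Multiplicative.toAdd h))) ∧
    off E l (t + r * Multiplicative.toAdd b) ∈ p ∧ off E r (t + l * Multiplicative.toAdd b) ∈ p}

theorem good_meas (E : Set Zm) (l r : ℕ) (t : ℤ) (H : Finset Zm) : MeasurableSet (good E l r t H) := by
  have : good E l r t H = {p | Pos ∈ p} ∩ ⋃ b : Zm, {p | b ∉ H ∧ b ∈ Pos ∧
    (∀ h ∈ H, (off E l (t + r * Multiplicative.toAdd h) ∈ p → b ∈ off E l (t + r * Multiplicative.toAdd h)) ∧
      (off E r (t + l * Multiplicative.toAdd h) ∈ p → b ∈ off E r (t + l * Multiplicative.toAdd h))) ∧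
    off E l (t + r * Multiplicative.toAdd b) ∈ p ∧ off E r (t + l * Multiplicative.toAdd b) ∈ p} := by
    ext p
    simp only [good, Set.mem_ofPred_eq, Set.mem_inter_iff, Set.mem_iUnion]
  rw [this]
  have himp : ∀ (V : Set Zm) (P : Prop), MeasurableSet {p : Ultrafilter Zm | V ∈ p → P} := by
    intro V P
    have : {p : Ultrafilter Zm | V ∈ p → P} = {p : Ultrafilter Zm | V ∈ p}ᶜ ∪ {_p : Ultrafilter Zm | P} := by
      ext p
      simp only [Set.mem_ofPred_eq, Set.mem_union, Set.mem_compl_iff]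
      tauto
    rw [this]
    exact (meas_basic _).compl.union (MeasurableSet.const _)
  refine (meas_basic _).inter (MeasurableSet.iUnion fun b => ?_)
  refine (MeasurableSet.const _).inter ((MeasurableSet.const _).inter (MeasurableSet.inter ?_
    ((meas_basic _).inter (meas_basic _))))
  have : {p : Ultrafilter Zm | ∀ h ∈ H, (off E l (t + r * Multiplicative.toAdd h) ∈ p → b ∈ off E l (t + r * Multiplicative.toAdd h)) ∧
      (off E r (t + l * Multiplicative.toAdd h) ∈ p → b ∈ off E r (t + l * Multiplicative.toAdd h))} =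
      ⋂ h ∈ H, ({p : Ultrafilter Zm | off E l (t + r * Multiplicative.toAdd h) ∈ p → b ∈ off E l (t + r * Multiplicative.toAdd h)} ∩
        {p : Ultrafilter Zm | off E r (t + l * Multiplicative.toAdd h) ∈ p → b ∈ off E r (t + l * Multiplicative.toAdd h)}) := by
    ext p
    simp
  show MeasurableSet {p : Ultrafilter Zm | ∀ h ∈ H, (off E l (t + r * Multiplicative.toAdd h) ∈ p → b ∈ off E l (t + r * Multiplicative.toAdd h)) ∧
      (off E r (t + l * Multiplicative.toAdd h) ∈ p → b ∈ off E r (t + l * Multiplicative.toAdd h))}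
  rw [this]
  exact Finset.measurableSet_biInter _ fun h _ => (himp _ _).inter (himp _ _)

theorem good_anti (E : Set Zm) (l r : ℕ) (t : ℤ) {H H' : Finset Zm} (h : H ⊆ H') :
    good E l r t H' ⊆ good E l r t H := by
  rintro p ⟨hA, b, hb, hp, hc, hd⟩
  exact ⟨hA, b, fun hh => hb (h hh), hp, fun x hx => hc x (h hx), hd⟩

theorem key (m : Mean Zm) (hpos : m.M (Pos.indicator 1) = 1) (E : Set Zm) (l r : ℕ) (hl : 0 < l) (hr : 0 < r)
    (τ : Finset ℕ) (hτ : τ ⊆ Finset.range (l + r)) (H : Finset Zm) :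
    (τ.card : ℝ) - (l + r) * ((dil l hl m).M (E.indicator 1) + (dil r hr m).M (E.indicator 1)) ≤
      ∑ t ∈ τ, (mu m).real (good E l r t H) := by
  classical
  obtain ⟨D₁, hD₁⟩ := exists_family m l r hl hr E
  obtain ⟨D₂, hD₂⟩ := exists_family m r l hr hl E
  obtain ⟨S, hSF, hSs⟩ := hD₁ (D₁.add D₂) (fun b c => by
    show D₁.d b c ≤ D₁.d b c + D₂.d b c
    have := D₂.nonneg b c
    linarith)
  obtain ⟨S', hSF', hSs'⟩ := hD₂ (D₁.add D₂) (fun b c => by
    show D₂.d b c ≤ D₁.d b c + D₂.d b c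
    have := D₁.nonneg b c
    linarith)
  set κ : Zm → Bool × (H → τ → Bool × Bool) := fun x => (decide (x ∈ Pos), fun h t =>
    (decide (x ∈ off E l ((t : ℕ) + r * Multiplicative.toAdd (h : Zm))),
      decide (x ∈ off E r ((t : ℕ) + l * Multiplicative.toAdd (h : Zm))))) with hκ
  set Bad : τ → (Bool × (H → τ → Bool × Bool)) → Set (Ultrafilter Zm) := fun t i =>
    {p | Pos ∈ p} ∩ {p | κ ⁻¹' {i} ∈ p} ∩ ⋂ b : Zm, {p | b ∉ H → κ b = i →
      ¬ (off E l ((t : ℕ) + r * Multiplicative.toAdd b) ∈ p ∧ off E r ((t : ℕ) + l * Multiplicative.toAdd b) ∈ p)}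
    with hBad
  have hmeas : ∀ t i, MeasurableSet (Bad t i) := by
    intro t i
    refine ((meas_basic _).inter (meas_basic _)).inter (MeasurableSet.iInter fun b => ?_)
    by_cases h1 : b ∉ H ∧ κ b = i
    · have : {p : Ultrafilter Zm | b ∉ H → κ b = i →
        ¬ (off E l ((t : ℕ) + r * Multiplicative.toAdd b) ∈ p ∧ off E r ((t : ℕ) + l * Multiplicative.toAdd b) ∈ p)} =
        ({p : Ultrafilter Zm | off E l ((t : ℕ) + r * Multiplicative.toAdd b) ∈ p} ∩
          {p : Ultrafilter Zm | off E r ((t : ℕ) + l * Multiplicative.toAdd b) ∈ p})ᶜ := by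
        ext p
        simp only [Set.mem_ofPred_eq, h1.1, h1.2, not_false_eq_true, true_imp_iff,
          Set.mem_compl_iff, Set.mem_inter_iff]
      rw [this]
      exact ((meas_basic _).inter (meas_basic _)).compl
    · have : {p : Ultrafilter Zm | b ∉ H → κ b = i →
        ¬ (off E l ((t : ℕ) + r * Multiplicative.toAdd b) ∈ p ∧ off E r ((t : ℕ) + l * Multiplicative.toAdd b) ∈ p)} =
        Set.univ := by
        ext p
        simp only [Set.mem_ofPred_eq, Set.mem_univ, iff_true]
        intro h2 h3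
        exact absurd ⟨h2, h3⟩ h1
      rw [this]
      exact MeasurableSet.univ
  have hnot : ∀ (n : ℕ) (y : ℤ) (p : Ultrafilter Zm), off E n y ∉ p →
      ({u : Ultrafilter Zm | E ∈ u}.indicator 1 : Ultrafilter Zm → ℝ) (pm n y p) = 1 := by
    intro n y p hp
    have h1 : (off E n y)ᶜ ∈ p := Ultrafilter.compl_mem_iff_notMem.mpr hp
    have h2 : pm n y p ∈ {u : Ultrafilter Zm | E ∈ u} := by
      show E ∈ p.map (aff n y)
      rw [Ultrafilter.mem_map]
      refine Filter.mem_of_superset h1 (fun x hx => ?_)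
      by_contra hcon
      exact hx hcon
    rw [Set.indicator_of_mem h2, Pi.one_apply]
  have hnn : ∀ u : Ultrafilter Zm, (0 : ℝ) ≤ ({u : Ultrafilter Zm | E ∈ u}.indicator 1 : Ultrafilter Zm → ℝ) u :=
    fun u => Set.indicator_nonneg (fun _ _ => zero_le_one) _
  have hbound := main_bound (fun t : τ => S ((t : ℕ) : ℤ)) (fun t : τ => S' ((t : ℕ) : ℤ)) κ H Bad hmeas
    (fun t i p hp => hp.1.2) (by
    intro t i b hb hbH p hp
    have h2 := Set.mem_iInter.mp hp.2 b hbH hb
    rw [not_and_or] at h2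
    rw [hSF, hSF']
    rcases h2 with h2 | h2
    · rw [hnot _ _ _ h2]
      have := hnn (pm r (((t : ℕ) : ℤ) + l * Multiplicative.toAdd b) p)
      linarith
    · rw [hnot _ _ _ h2]
      have := hnn (pm l (((t : ℕ) : ℤ) + r * Multiplicative.toAdd b) p)
      linarith)
    ((l + r) * ((dil l hl m).M (E.indicator 1) + (dil r hr m).M (E.indicator 1))) (by
      intro ρ k
      have hsub : ∀ (T : ℤ → GSide m (D₁.add D₂)),
          ∑ t : τ, m.M (sv (T ((t : ℕ) : ℤ)) k) ≤ ∑ t ∈ Finset.range (l + r), m.M (sv (T t) k) := by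
        intro T
        have e : ∑ t : τ, m.M (sv (T ((t : ℕ) : ℤ)) k) = ∑ t ∈ τ, m.M (sv (T t) k) :=
          Finset.sum_coe_sort τ (fun t : ℕ => m.M (sv (T t) k))
        rw [e]
        exact Finset.sum_le_sum_of_subset_of_nonneg hτ (fun t _ _ =>
          m.nonneg (sv_bdd (T t) k) (fun c => (sv_mem (T t) k c).1))
      rw [Finset.sum_add_distrib]
      have h1 := hsub S
      have h2 := hsub S'
      rw [hSs] at h1
      have h3 := hSs' ρ k
      rw [add_comm r l] at h3
      rw [h3] at h2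
      linarith)
  have hPos1 : (mu m).real {p : Ultrafilter Zm | Pos ∈ p} = 1 := by rw [mu_basic, hpos]
  have hcover : ∀ t : τ, {p : Ultrafilter Zm | Pos ∈ p} ⊆ good E l r ((t : ℕ) : ℤ) H ∪ ⋃ i, Bad t i := by
    intro t p hp
    by_cases hg : p ∈ good E l r ((t : ℕ) : ℤ) H
    · exact Or.inl hg
    · right
      obtain ⟨i, hi⟩ := exists_color κ p
      refine Set.mem_iUnion.mpr ⟨i, ⟨hp, hi⟩, ?_⟩
      refine Set.mem_iInter.mpr fun b => ?_
      intro hbH hbi hcon
      apply hg
      have hbpos : b ∈ Pos := by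
        obtain ⟨x, hx1, hx2⟩ := p.nonempty_of_mem (Filter.inter_mem hi hp)
        have e1 : κ x = κ b := by rw [hbi]; exact hx1
        have e2 := congrArg Prod.fst e1
        simp only [hκ] at e2
        have e4 : decide (x ∈ Pos) = true := decide_eq_true hx2
        rw [e4] at e2
        exact of_decide_eq_true e2.symm
      refine ⟨hp, b, hbH, hbpos, fun h hh => ⟨fun h1 => ?_, fun h1 => ?_⟩, hcon.1, hcon.2⟩
      · obtain ⟨x, hx1, hx2⟩ := p.nonempty_of_mem (Filter.inter_mem hi h1)
        have e1 : κ x = κ b := by rw [hbi]; exact hx1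
        have e2 := congrArg Prod.fst (congrFun (congrFun (congrArg Prod.snd e1) ⟨h, hh⟩) t)
        simp only [hκ] at e2
        have e4 : decide (x ∈ off E l (((t : ℕ) : ℤ) + r * Multiplicative.toAdd h)) = true :=
          decide_eq_true hx2
        rw [e4] at e2
        exact of_decide_eq_true e2.symm
      · obtain ⟨x, hx1, hx2⟩ := p.nonempty_of_mem (Filter.inter_mem hi h1)
        have e1 : κ x = κ b := by rw [hbi]; exact hx1
        have e2 := congrArg Prod.snd (congrFun (congrFun (congrArg Prod.snd e1) ⟨h, hh⟩) t)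
        simp only [hκ] at e2
        have e4 : decide (x ∈ off E r (((t : ℕ) : ℤ) + l * Multiplicative.toAdd h)) = true :=
          decide_eq_true hx2
        rw [e4] at e2
        exact of_decide_eq_true e2.symm
  have h1 : ∀ t : τ, (1 : ℝ) ≤ (mu m).real (good E l r ((t : ℕ) : ℤ) H) +
      ∑ i, (mu m).real (Bad t i) := by
    intro t
    calc (1 : ℝ) = (mu m).real {p : Ultrafilter Zm | Pos ∈ p} := hPos1.symm
      _ ≤ (mu m).real (good E l r ((t : ℕ) : ℤ) H ∪ ⋃ i, Bad t i) := measureReal_mono (hcover t)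
      _ ≤ (mu m).real (good E l r ((t : ℕ) : ℤ) H) + (mu m).real (⋃ i, Bad t i) := measureReal_union_le _ _
      _ ≤ _ := by
          gcongr
          exact measureReal_iUnion_fintype_le _
  have h2 : ∑ t : τ, (1 : ℝ) ≤ ∑ t : τ, ((mu m).real (good E l r ((t : ℕ) : ℤ) H) +
      ∑ i, (mu m).real (Bad t i)) := Finset.sum_le_sum fun t _ => h1 t
  rw [Finset.sum_add_distrib] at h2
  have h3 : ∑ t : τ, (1 : ℝ) = τ.card := by simp
  have h4 : ∑ t : τ, (mu m).real (good E l r ((t : ℕ) : ℤ) H) = ∑ t ∈ τ, (mu m).real (good E l r (t : ℤ) H) :=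
    Finset.sum_coe_sort τ (fun t : ℕ => (mu m).real (good E l r (t : ℤ) H))
  rw [h3, h4] at h2
  linarith

theorem exists_good' (m : Mean Zm) (hpos : m.M (Pos.indicator 1) = 1) (E : Set Zm) (l r : ℕ) (hl : 0 < l) (hr : 0 < r)
    (τ : Finset ℕ) (hτ : τ ⊆ Finset.range (l + r))
    (hd : (l + r) * ((dil l hl m).M (E.indicator 1) + (dil r hr m).M (E.indicator 1)) < (τ.card : ℝ)) :
    ∃ t ∈ τ, ∃ p : Ultrafilter Zm, ∀ H : Finset Zm, p ∈ good E l r t H := by
  classical
  set δ : ℝ := (τ.card : ℝ) - (l + r) * ((dil l hl m).M (E.indicator 1) + (dil r hr m).M (E.indicator 1)) with hδ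
  have hδ0 : 0 < δ := by rw [hδ]; linarith
  have hτc : (0 : ℝ) < τ.card := by
    by_contra hcon
    have h0 : (τ.card : ℝ) = 0 := le_antisymm (not_lt.1 hcon) (Nat.cast_nonneg _)
    have h1 : 0 ≤ (dil l hl m).M (E.indicator 1) := (dil l hl m).nonneg (bdd_indicator E)
      (fun x => Set.indicator_nonneg (fun _ _ => zero_le_one) _)
    have h2 : 0 ≤ (dil r hr m).M (E.indicator 1) := (dil r hr m).nonneg (bdd_indicator E)
      (fun x => Set.indicator_nonneg (fun _ _ => zero_le_one) _)
    rw [h0] at hd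
    have : (0 : ℝ) ≤ (l + r) * ((dil l hl m).M (E.indicator 1) + (dil r hr m).M (E.indicator 1)) := by
      positivity
    linarith
  have hkey := key m hpos E l r hl hr τ hτ
  have hex : ∃ t ∈ τ, ∀ H : Finset Zm, δ / τ.card ≤ (mu m).real (good E l r t H) := by
    by_contra hcon
    push Not at hcon
    choose! f hf using hcon
    have h1 := hkey (τ.biUnion f)
    have h2 : ∀ t ∈ τ, (mu m).real (good E l r t (τ.biUnion f)) < δ / τ.card := by
      intro t ht
      refine lt_of_le_of_lt (measureReal_mono (good_anti E l r t ?_)) (hf t ht)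
      exact Finset.subset_biUnion_of_mem f ht
    have hne : τ.Nonempty := by
      rw [← Finset.card_pos]
      exact_mod_cast hτc
    have h3 : ∑ t ∈ τ, (mu m).real (good E l r t (τ.biUnion f)) < ∑ t ∈ τ, δ / τ.card :=
      Finset.sum_lt_sum_of_nonempty hne h2
    rw [Finset.sum_const, nsmul_eq_mul, mul_div_cancel₀ _ hτc.ne'] at h3
    linarith
  obtain ⟨t, ht, hH⟩ := hex
  refine ⟨t, ht, ?_⟩
  have hanti : Antitone (fun H : Finset Zm => good E l r t H) := fun H H' hHH => good_anti E l r t hHH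
  have hT := tendsto_measure_iInter_atTop (μ := mu m)
    (fun H : Finset Zm => (good_meas E l r t H).nullMeasurableSet) hanti
    ⟨∅, measure_ne_top _ _⟩
  have hT2 : Tendsto (fun H : Finset Zm => (mu m).real (good E l r t H)) atTop
      (𝓝 ((mu m).real (⋂ H : Finset Zm, good E l r t H))) :=
    (ENNReal.tendsto_toReal (measure_ne_top _ _)).comp hT
  have h3 : δ / τ.card ≤ (mu m).real (⋂ H : Finset Zm, good E l r t H) := ge_of_tendsto' hT2 hH
  have h4 : (⋂ H : Finset Zm, good E l r t H).Nonempty := by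
    by_contra hcon
    rw [Set.not_nonempty_iff_eq_empty] at hcon
    rw [hcon, measureReal_empty] at h3
    have : 0 < δ / τ.card := by positivity
    linarith
  obtain ⟨p, hp⟩ := h4
  exact ⟨p, fun H => Set.mem_iInter.mp hp H⟩

/-- extraction of the sequence -/
theorem extract' (E : Set Zm) (l r : ℕ) (t : ℤ) (p : Ultrafilter Zm)
    (hp : ∀ H : Finset Zm, p ∈ good E l r t H) :
    ∃ b : ℕ → Zm, Function.Injective b ∧ (∀ i, b i ∈ Pos) ∧
      ∀ i j, i ≠ j → aff l (t + r * Multiplicative.toAdd (b i)) (b j) ∉ E := by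
  classical
  obtain ⟨f, hf1, hf2⟩ := exists_seq_of_forall_finset_exists
    (fun b : Zm => b ∈ Pos ∧ off E l (t + r * Multiplicative.toAdd b) ∈ p ∧
      off E r (t + l * Multiplicative.toAdd b) ∈ p)
    (fun x y : Zm => x ≠ y ∧ y ∈ off E l (t + r * Multiplicative.toAdd x) ∧
      y ∈ off E r (t + l * Multiplicative.toAdd x))
    (by
      intro s hs
      obtain ⟨_, b, hbH, hbpos, hb1, hb2, hb3⟩ := hp s
      refine ⟨b, ⟨hbpos, hb2, hb3⟩, fun x hx => ⟨?_, ?_, ?_⟩⟩
      · rintro rfl
        exact hbH hx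
      · exact (hb1 x hx).1 (hs x hx).2.1
      · exact (hb1 x hx).2 (hs x hx).2.2)
  refine ⟨f, ?_, fun i => (hf1 i).1, fun i j hij => ?_⟩
  · intro i j hij
    by_contra hne
    rcases lt_or_gt_of_ne hne with h | h
    · exact (hf2 _ _ h).1 hij
    · exact (hf2 _ _ h).1 hij.symm
  · rcases lt_or_gt_of_ne hij with h | h
    · exact (hf2 _ _ h).2.1
    · have h1 := (hf2 _ _ h).2.2
      have h2 : aff r (t + l * Multiplicative.toAdd (f j)) (f i) =
          aff l (t + r * Multiplicative.toAdd (f i)) (f j) := by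
        unfold aff
        congr 1
        ring
      show aff l (t + r * Multiplicative.toAdd (f i)) (f j) ∉ E
      rw [← h2]
      exact h1

end Pool.Agent.Q154.MS
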