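import Mathlib
import Pool.Agent.Q154.MS.Fin

/-!
# From counting functions to means
-/

set_option autoImplicit false
set_option linter.unusedSectionVars false

open Filter Topology MeasureTheory

namespace Pool.Agent.Q154.MS

open Pool.Agent.TH396.PS

/-- existence of a mean dominated by the averages -/
theorem exists_mean_fun (Φ : ℕ → Finset Zm) (hne : ∀ N, (Φ N).Nonempty)
    (hl : ∀ g : Zm, Tendsto (fun N => ((((Φ N).image (fun x => g * x)) ∩ Φ N).card : ℝ) / (Φ N).card)
      atTop (𝓝 1)) :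
    ∃ m : Mean Zm, ∀ (f : Zm → ℝ) (α : ℝ), Bdd f → (∀ᶠ N in atTop, avg (Φ N) f ≤ α) → m.M f ≤ α := by
  classical
  set 𝒰 : Ultrafilter ℕ := Ultrafilter.of atTop with h𝒰
  have h𝒰1 : (𝒰 : Filter ℕ) ≤ atTop := Ultrafilter.of_le atTop
  set M : (Zm → ℝ) → ℝ := fun f => limUnder (𝒰 : Filter ℕ) (fun N => avg (Φ N) f) with hM
  have hb : ∀ f : Zm → ℝ, Bdd f → Bdd (fun N => avg (Φ N) f) := by
    rintro f ⟨C, hC⟩
    refine ⟨|C|, fun N => ?_⟩
    exact abs_avg_le _ (fun x => (hC x).trans (le_abs_self C)) (abs_nonneg _)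
  have ht : ∀ f : Zm → ℝ, Bdd f → Tendsto (fun N => avg (Φ N) f) 𝒰 (𝓝 (M f)) := fun f hf =>
    tendsto_ulim 𝒰 _ (hb f hf)
  have hshift : ∀ (e : Zm ≃ Zm) (f : Zm → ℝ), Bdd f →
      Tendsto (fun N => ((((Φ N).image e) ∩ Φ N).card : ℝ) / (Φ N).card) atTop (𝓝 1) →
      M (fun x => f (e x)) = M f := by
    intro e f hf he
    obtain ⟨C, hC⟩ := hf
    have h1 : Tendsto (fun N => avg (Φ N) (fun x => f (e x)) - avg (Φ N) f) atTop (𝓝 0) := by
      have h2 : Tendsto (fun N => 2 * C * (1 - ((((Φ N).image e) ∩ Φ N).card : ℝ) / (Φ N).card))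
          atTop (𝓝 0) := by
        have := (he.const_sub 1).const_mul (2 * C)
        simpa using this
      exact squeeze_zero_norm (fun N => avg_shift e (Φ N) f hC (hne N)) h2
    have h3 := (ht _ (Bdd.comp ⟨C, hC⟩ e)).sub (ht f ⟨C, hC⟩)
    have h4 := tendsto_nhds_unique h3 (h1.mono_left h𝒰1)
    linarith
  have hr : ∀ g : Zm, Tendsto (fun N => ((((Φ N).image (fun x => x * g)) ∩ Φ N).card : ℝ) / (Φ N).card)
      atTop (𝓝 1) := by
    intro g
    have : (fun x : Zm => x * g) = fun x => g * x := by funext x; exact mul_comm _ _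
    rw [this]
    exact hl g
  refine ⟨⟨M, ?_, ?_, ?_, ?_, ?_, ?_, ?_⟩, ?_⟩
  · intro f g hf hg
    refine tendsto_nhds_unique (ht _ (hf.add hg)) ?_
    simp only [avg_add]
    exact (ht f hf).add (ht g hg)
  · intro c f hf
    refine tendsto_nhds_unique (ht _ (hf.smul c)) ?_
    simp only [avg_smul]
    exact (ht f hf).const_mul c
  · intro f g hf hg h
    exact le_of_tendsto_of_tendsto' (ht f hf) (ht g hg) (fun N => avg_mono _ h)
  · intro c
    refine tendsto_nhds_unique (ht _ (Bdd.const c)) ?_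
    simp only [avg_const (hne _)]
    exact tendsto_const_nhds
  · intro a f hf
    exact hshift (Equiv.mulLeft a) f hf (hl a)
  · intro a f hf
    exact hshift (Equiv.mulRight a) f hf (hr a)
  · intro S hS hSb η hη
    have : ∀ᶠ N in (𝒰 : Filter ℕ), ∀ f ∈ S, |avg (Φ N) f - M f| ≤ η := by
      rw [Filter.eventually_all_finite hS]
      intro f hf
      have := (ht f (hSb f hf))
      rw [Metric.tendsto_nhds] at this
      filter_upwards [this η hη] with N hN
      exact hN.le
    obtain ⟨N, hN⟩ := this.exists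
    exact ⟨Φ N, hne N, hN⟩
  · intro f α hf h
    exact le_of_tendsto (ht f hf) (h𝒰1 h)

open Classical in
/-- the number of elements of `F` below `n` -/
noncomputable def cnt (F : Set ℕ) (n : ℕ) : ℕ := ((Finset.range n).filter (fun x => x ∈ F)).card

/-- `F` as a set of integers -/
def emb (F : Set ℕ) : Set Zm := {x | ∃ n ∈ F, ((n : ℕ) : ℤ) = Multiplicative.toAdd x}

theorem emb_ofAdd (F : Set ℕ) (n : ℕ) : Multiplicative.ofAdd (n : ℤ) ∈ emb F ↔ n ∈ F := by
  constructor
  · rintro ⟨k, hk, h⟩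
    rw [toAdd_ofAdd] at h
    have : k = n := by exact_mod_cast h
    rwa [← this]
  · intro h
    exact ⟨n, h, rfl⟩

theorem cnt_eq (F : Set ℕ) (n : ℕ) :
    (cnt F n : ℝ) = ∑ x ∈ Finset.range n, (emb F).indicator 1 (Multiplicative.ofAdd (x : ℤ)) := by
  classical
  unfold cnt
  rw [Finset.card_filter]
  push_cast
  refine Finset.sum_congr rfl fun x _ => ?_
  by_cases hx : x ∈ F
  · rw [if_pos hx, Set.indicator_of_mem ((emb_ofAdd F x).2 hx), Pi.one_apply]
  · rw [if_neg hx, Set.indicator_of_notMem (fun h => hx ((emb_ofAdd F x).1 h))]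

theorem range_mul_sum (n k : ℕ) (g : ℕ → ℝ) :
    ∑ x ∈ Finset.range (n * k), g x = ∑ b ∈ Finset.range k, ∑ s ∈ Finset.range n, g (n * b + s) := by
  induction k with
  | zero => simp
  | succ k ih =>
    rw [Nat.mul_succ, Finset.sum_range_add, ih, Finset.sum_range_succ]

/-- the local density function -/
noncomputable def lf (F : Set ℕ) (n : ℕ) (b : Zm) : ℝ :=
  (∑ s ∈ Finset.range n, (emb F).indicator 1 (aff n s b)) / n

theorem lf_bdd (F : Set ℕ) (n : ℕ) : Bdd (lf F n) := by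
  have h1 : Bdd (fun b : Zm => (1 / (n : ℝ)) * ∑ s ∈ Finset.range n, (emb F).indicator (1 : Zm → ℝ) (aff n s b)) :=
    (Bdd.sum _ fun s _ => (bdd_indicator (emb F)).comp _).smul _
  have h2 : lf F n = fun b : Zm => (1 / (n : ℝ)) * ∑ s ∈ Finset.range n, (emb F).indicator (1 : Zm → ℝ) (aff n s b) := by
    funext b
    unfold lf
    rw [div_eq_mul_inv, one_div, mul_comm]
  rw [h2]
  exact h1

theorem lf_mean (F : Set ℕ) (n : ℕ) (hn : 0 < n) (m : Mean Zm) :
    m.M (lf F n) = (dil n hn m).M ((emb F).indicator 1) := by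
  have h2 : lf F n = fun b : Zm => (1 / (n : ℝ)) * ∑ s ∈ Finset.range n, (emb F).indicator (1 : Zm → ℝ) (aff n s b) := by
    funext b
    unfold lf
    rw [div_eq_mul_inv, one_div, mul_comm]
  rw [h2, m.smul' _ _ (Bdd.sum _ fun s _ => (bdd_indicator (emb F)).comp _),
    m.sum _ (fun s _ => (bdd_indicator (emb F)).comp _), dil_M, one_div, div_eq_mul_inv, mul_comm]

theorem lf_sum (F : Set ℕ) (n : ℕ) (hn : 0 < n) (k : ℕ) :
    ∑ b ∈ Finset.range k, lf F n (Multiplicative.ofAdd (b : ℤ)) = cnt F (n * k) / n := by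
  rw [cnt_eq, range_mul_sum, Finset.sum_div]
  refine Finset.sum_congr rfl fun b _ => ?_
  unfold lf
  congr 1

/-- selection of a window -/
theorem exists_window (g : ℕ → ℝ) (c δ : ℝ) (hg0 : ∀ b, 0 ≤ g b) (hδ : 0 < δ)
    (hc : δ ≤ c)
    (hX : ∀ X0 : ℕ, ∃ X : ℕ, X0 ≤ X ∧ ∑ b ∈ Finset.range X, g b ≤ (c - δ) * X) (w : ℕ) (hw : 0 < w) :
    ∃ x : ℕ, ∑ b ∈ Finset.range w, g (x + b) ≤ (c - δ / 2) * w := by
  by_contra hcon
  push Not at hcon
  obtain ⟨X0, hX0⟩ := exists_nat_gt (2 * (c - δ / 2) * w / δ)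
  obtain ⟨X, hX1, hX2⟩ := hX X0
  set J := X / w with hJ
  have h1 : ∑ b ∈ Finset.range (w * J), g b ≤ ∑ b ∈ Finset.range X, g b := by
    apply Finset.sum_le_sum_of_subset_of_nonneg
    · intro x hx
      rw [Finset.mem_range] at hx ⊢
      exact lt_of_lt_of_le hx (Nat.mul_div_le X w)
    · intro i _ _
      exact hg0 i
  rw [range_mul_sum] at h1
  have h2 : (J : ℝ) * ((c - δ / 2) * w) ≤ ∑ b ∈ Finset.range J, ∑ s ∈ Finset.range w, g (w * b + s) := by
    have h3 : ∑ b ∈ Finset.range J, (c - δ / 2) * w ≤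
        ∑ b ∈ Finset.range J, ∑ s ∈ Finset.range w, g (w * b + s) :=
      Finset.sum_le_sum fun b _ => (hcon (w * b)).le
    rwa [Finset.sum_const, Finset.card_range, nsmul_eq_mul] at h3
  have hXlt : (X : ℝ) < w * (J + 1) := by
    have h4 := Nat.lt_mul_div_succ X hw
    have h5 : ((X : ℕ) : ℝ) < ((w * (X / w + 1) : ℕ) : ℝ) := by exact_mod_cast h4
    push_cast at h5
    rw [hJ]
    exact_mod_cast h5
  have hw' : (0 : ℝ) < w := by exact_mod_cast hw
  have h6 : (c - δ / 2) * (w * J) ≤ (c - δ) * X := by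
    calc (c - δ / 2) * (w * J) = (J : ℝ) * ((c - δ / 2) * w) := by ring
      _ ≤ _ := h2.trans (h1.trans hX2)
  have h7 : 0 < c - δ / 2 := by linarith
  have h8 : (c - δ / 2) * (X - w) ≤ (c - δ / 2) * (w * J) := by
    apply mul_le_mul_of_nonneg_left _ h7.le
    linarith
  have h9 : 2 * (c - δ / 2) * w / δ < X := hX0.trans_le (by exact_mod_cast hX1)
  rw [div_lt_iff₀ hδ] at h9
  nlinarith

/-- the main theorem for subsets of the natural numbers -/
theorem main_nat (l r : ℕ) (hl : 0 < l) (hr : 0 < r) (F : Set ℕ) (c δ : ℝ) (hδ : 0 < δ) (hc : δ ≤ c)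
    (hX : ∀ X0 : ℕ, ∃ X : ℕ, X0 ≤ X ∧ (cnt F (l * X) : ℝ) / l + (cnt F (r * X) : ℝ) / r ≤ (c - δ) * X)
    (τ : Finset ℕ) (hτ : τ ⊆ Finset.range (l + r)) (hτc : (l + r) * c ≤ (τ.card : ℝ)) :
    ∃ t ∈ τ, ∃ b : ℕ → ℕ, Function.Injective b ∧ (∀ i, 0 < b i) ∧
      ∀ i j, i ≠ j → r * b i + l * b j + t ∉ F := by
  classical
  set g : ℕ → ℝ := fun b => lf F l (Multiplicative.ofAdd (b : ℤ)) + lf F r (Multiplicative.ofAdd (b : ℤ)) with hg
  have hlf0 : ∀ n (b : Zm), 0 ≤ lf F n b := fun n b => by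
    unfold lf
    exact div_nonneg (Finset.sum_nonneg fun s _ => Set.indicator_nonneg (fun _ _ => zero_le_one) _)
      (Nat.cast_nonneg _)
  have hsum : ∀ X : ℕ, ∑ b ∈ Finset.range X, g b = (cnt F (l * X) : ℝ) / l + (cnt F (r * X) : ℝ) / r := by
    intro X
    rw [hg, Finset.sum_add_distrib, lf_sum F l hl, lf_sum F r hr]
  have hwin := exists_window g c δ (fun b => add_nonneg (hlf0 _ _) (hlf0 _ _)) hδ hc (fun X0 => by
    obtain ⟨X, h1, h2⟩ := hX X0
    exact ⟨X, h1, by rw [hsum]; exact h2⟩)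
  choose! x hx using hwin
  set Φ : ℕ → Finset Zm := fun N => win (x (N + 1) : ℤ) (N + 1) with hΦ
  have hne : ∀ N, (Φ N).Nonempty := by
    intro N
    rw [← Finset.card_pos, hΦ, win_card]
    omega
  obtain ⟨m, hm⟩ := exists_mean_fun Φ hne
    (fun a => win_fol (fun N => (x (N + 1) : ℤ)) (fun N => N + 1) (tendsto_add_atTop_nat 1) a)
  -- averages over the windows
  have havg : ∀ (N : ℕ) (f : Zm → ℝ), avg (Φ N) f =
      (∑ b ∈ Finset.range (N + 1), f (Multiplicative.ofAdd (((x (N + 1) + b : ℕ)) : ℤ))) / ((N : ℝ) + 1) := by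
    intro N f
    unfold avg
    rw [hΦ, win_card]
    push_cast
    congr 1
    unfold win
    rw [Finset.sum_image (fun a _ b _ h => Multiplicative.ofAdd.injective h)]
    symm
    refine Finset.sum_bij (fun b _ => (x (N + 1) : ℤ) + b) ?_ ?_ ?_ ?_
    · intro b hb
      rw [Finset.mem_range] at hb
      rw [Finset.mem_Ico]
      push_cast
      omega
    · intro b _ b' _ h
      have : (b : ℤ) = b' := by linarith
      exact_mod_cast this
    · intro z hz
      rw [Finset.mem_Ico] at hz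
      refine ⟨(z - x (N + 1)).toNat, ?_, ?_⟩
      · rw [Finset.mem_range]
        push_cast at hz
        omega
      · have := Int.toNat_of_nonneg (sub_nonneg.2 hz.1)
        rw [this]; ring
    · intro b _
      rfl
  have hgm : m.M (fun b => lf F l b + lf F r b) ≤ c - δ / 2 := by
    apply hm _ _ ((lf_bdd F l).add (lf_bdd F r))
    refine Eventually.of_forall fun N => ?_
    rw [havg, div_le_iff₀ (by positivity)]
    have := hx (N + 1) (Nat.succ_pos N)
    simp only [hg] at this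
    push_cast at this ⊢
    exact this
  rw [m.add' _ _ (lf_bdd F l) (lf_bdd F r), lf_mean F l hl, lf_mean F r hr] at hgm
  have hneg : m.M (Posᶜ.indicator 1) ≤ 0 := by
    apply le_of_forall_pos_le_add
    intro ε hε
    rw [zero_add]
    apply hm _ _ (bdd_indicator _)
    obtain ⟨N0, hN0⟩ := exists_nat_gt (1 / ε)
    filter_upwards [eventually_ge_atTop N0] with N hN
    rw [havg, div_le_iff₀ (by positivity)]
    have h1 : ∑ b ∈ Finset.range (N + 1),
        (Posᶜ.indicator 1 : Zm → ℝ) (Multiplicative.ofAdd (((x (N + 1) + b : ℕ)) : ℤ)) ≤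
        ∑ b ∈ Finset.range (N + 1), (if b = 0 then (1 : ℝ) else 0) := by
      refine Finset.sum_le_sum fun b _ => ?_
      by_cases hb : b = 0
      · rw [if_pos hb]
        by_cases h : Multiplicative.ofAdd (((x (N + 1) + b : ℕ)) : ℤ) ∈ Posᶜ
        · rw [Set.indicator_of_mem h, Pi.one_apply]
        · rw [Set.indicator_of_notMem h]
          exact zero_le_one
      · rw [if_neg hb]
        have h : Multiplicative.ofAdd (((x (N + 1) + b : ℕ)) : ℤ) ∉ Posᶜ := by
          intro h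
          apply h
          show 0 < Multiplicative.toAdd (Multiplicative.ofAdd (((x (N + 1) + b : ℕ)) : ℤ))
          rw [toAdd_ofAdd]
          have : 0 < x (N + 1) + b := by omega
          exact_mod_cast this
        rw [Set.indicator_of_notMem h]
    have h2 : ∑ b ∈ Finset.range (N + 1), (if b = 0 then (1 : ℝ) else 0) = 1 := by
      rw [Finset.sum_ite_eq' (Finset.range (N + 1)) 0 (fun _ => (1 : ℝ))]
      simp
    have h3 : (N0 : ℝ) ≤ N := by exact_mod_cast hN
    have h4 : 1 ≤ ε * ((N : ℝ) + 1) := by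
      rw [div_lt_iff₀ hε] at hN0
      nlinarith
    linarith
  have hpos : m.M (Pos.indicator 1) = 1 := by
    have h1 : m.M (fun y => (Pos.indicator 1 : Zm → ℝ) y + (Posᶜ.indicator 1 : Zm → ℝ) y) = 1 := by
      have : (fun y => (Pos.indicator 1 : Zm → ℝ) y + (Posᶜ.indicator 1 : Zm → ℝ) y) = fun _ => (1 : ℝ) := by
        funext y
        by_cases hy : y ∈ Pos <;> simp [hy]
      rw [this, m.const']
    rw [m.add' _ _ (bdd_indicator _) (bdd_indicator _)] at h1
    have h2 : 0 ≤ m.M (Posᶜ.indicator 1) := m.nonneg (bdd_indicator _)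
      (fun y => Set.indicator_nonneg (fun _ _ => zero_le_one) _)
    have h3 : m.M (Posᶜ.indicator 1) = 0 := le_antisymm hneg h2
    rw [h3, add_zero] at h1
    exact h1
  have hlr : (0 : ℝ) < l + r := by
    have : (0 : ℝ) < l := by exact_mod_cast hl
    have : (0 : ℝ) < r := by exact_mod_cast hr
    linarith
  obtain ⟨t, ht, p, hp⟩ := exists_good' m hpos (emb F) l r hl hr τ hτ (by
    have h1 : ((l : ℝ) + r) * ((dil l hl m).M ((emb F).indicator 1) + (dil r hr m).M ((emb F).indicator 1)) ≤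
      (l + r) * (c - δ / 2) := mul_le_mul_of_nonneg_left hgm hlr.le
    have h2 : ((l : ℝ) + r) * (c - δ / 2) < (l + r) * c := mul_lt_mul_of_pos_left (by linarith) hlr
    linarith)
  obtain ⟨b, hb1, hb2, hb3⟩ := extract' (emb F) l r t p hp
  refine ⟨t, ht, fun i => (Multiplicative.toAdd (b i)).toNat, ?_, fun i => ?_, fun i j hij => ?_⟩
  · intro i j hij
    apply hb1
    apply Multiplicative.toAdd.injective
    have h1 : 0 < Multiplicative.toAdd (b i) := hb2 i
    have h2 : 0 < Multiplicative.toAdd (b j) := hb2 j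
    have h3 : (Multiplicative.toAdd (b i)).toNat = (Multiplicative.toAdd (b j)).toNat := hij
    omega
  · have h1 : 0 < Multiplicative.toAdd (b i) := hb2 i
    show 0 < (Multiplicative.toAdd (b i)).toNat
    omega
  · intro hF
    apply hb3 i j hij
    have h1 : 0 < Multiplicative.toAdd (b i) := hb2 i
    have h2 : 0 < Multiplicative.toAdd (b j) := hb2 j
    refine ⟨_, hF, ?_⟩
    unfold aff
    rw [toAdd_ofAdd]
    push_cast
    rw [Int.toNat_of_nonneg h1.le, Int.toNat_of_nonneg h2.le]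
    ring

end Pool.Agent.Q154.MS
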