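import Mathlib
import Pool.Agent.Q154.MS.Win

/-!
# From densities to sumsets
-/

set_option autoImplicit false

open Filter Topology

namespace Pool.Agent.Q154.MS

/-- the density ratio -/
noncomputable def ratio (A : Set ℕ) (N : ℕ) : ℝ := ((A ∩ Set.Icc 1 N).ncard : ℝ) / N

theorem ratio_nonneg (A : Set ℕ) (N : ℕ) : 0 ≤ ratio A N := by
  unfold ratio; positivity

theorem ratio_le_one (A : Set ℕ) (N : ℕ) : ratio A N ≤ 1 := by
  unfold ratio
  apply div_le_one_of_le₀ _ (Nat.cast_nonneg _)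
  have h1 : (A ∩ Set.Icc 1 N).ncard ≤ (Set.Icc 1 N).ncard :=
    Set.ncard_le_ncard Set.inter_subset_right (Set.finite_Icc 1 N)
  have h2 : (Set.Icc 1 N).ncard = N := by
    rw [Set.ncard_eq_toFinset_card']
    simp
  rw [h2] at h1
  exact_mod_cast h1

theorem cnt_mono (F : Set ℕ) {a b : ℕ} (h : a ≤ b) : cnt F a ≤ cnt F b := by
  classical
  unfold cnt
  apply Finset.card_le_card
  apply Finset.filter_subset_filter
  exact Finset.range_mono h

/-- the complement has few elements when `A` has many -/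
theorem cnt_le (A F : Set ℕ) (hF : ∀ x ∈ F, x ∉ A) (n : ℕ) (d : ℝ) (hn : 0 < n) (h : d < ratio A n) :
    (cnt F (n + 1) : ℝ) ≤ (1 - d) * n + 1 := by
  classical
  have hn' : (0 : ℝ) < n := by exact_mod_cast hn
  have h1 : d * n < ((A ∩ Set.Icc 1 n).ncard : ℝ) := by
    unfold ratio at h
    rwa [lt_div_iff₀ hn'] at h
  have h2 : (A ∩ Set.Icc 1 n).ncard = ((Finset.Icc 1 n).filter (fun x => x ∈ A)).card := by
    rw [← Set.ncard_coe_finset]
    congr 1
    ext x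
    simp only [Set.mem_inter_iff, Set.mem_Icc, Finset.coe_filter, Finset.mem_Icc, Set.mem_ofPred_eq]
    exact and_comm
  have h3 : cnt F (n + 1) + ((Finset.Icc 1 n).filter (fun x => x ∈ A)).card ≤ n + 1 := by
    unfold cnt
    rw [← Finset.card_union_of_disjoint]
    · calc _ ≤ (Finset.range (n + 1)).card := by
            apply Finset.card_le_card
            intro x hx
            rw [Finset.mem_union, Finset.mem_filter, Finset.mem_filter, Finset.mem_range, Finset.mem_Icc] at hx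
            rw [Finset.mem_range]
            omega
        _ = n + 1 := Finset.card_range _
    · rw [Finset.disjoint_left]
      intro x hx hx'
      rw [Finset.mem_filter] at hx hx'
      exact hF x hx.2 hx'.2
  have h4 : (cnt F (n + 1) : ℝ) + ((A ∩ Set.Icc 1 n).ncard : ℝ) ≤ n + 1 := by
    rw [h2]
    exact_mod_cast h3
  linarith

/-- positive upper density gap -/
theorem upper_bound (A F : Set ℕ) (hF : ∀ x ∈ F, x ∉ A) (θ : ℝ)
    (hθ : θ < limsup (fun N : ℕ => ((A ∩ Set.Icc 1 N).ncard : ℝ) / N) atTop)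
    (l r : ℕ) (hr : 0 < r) (hrl : r < l) :
    ∃ κ K : ℝ, κ < (1 - θ) * (l + r) / r ∧
      ∀ X0 : ℕ, ∃ X : ℕ, X0 ≤ X ∧ (cnt F (l * X) : ℝ) / l + (cnt F (r * X) : ℝ) / r ≤ κ * X + K := by
  have hθ' : θ < limsup (ratio A) atTop := hθ
  have hl : 0 < l := hr.trans hrl
  have hl' : (0 : ℝ) < l := by exact_mod_cast hl
  have hr' : (0 : ℝ) < r := by exact_mod_cast hr
  obtain ⟨d, hd1, hd2⟩ := exists_between hθ'
  have hfreq : ∃ᶠ n in atTop, d < ratio A n := by
    apply Filter.frequently_lt_of_lt_limsup _ hd2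
    exact Filter.isCoboundedUnder_le_of_le atTop (x := 0) (ratio_nonneg A)
  have hd3 : d < 1 := by
    obtain ⟨n, hn⟩ := hfreq.exists
    exact hn.trans_le (ratio_le_one A n)
  refine ⟨(1 - d) * (l + r) / r, (1 / l + 1 / r) * ((1 - d) * l + 1), ?_, ?_⟩
  · apply div_lt_div_of_pos_right _ hr'
    apply mul_lt_mul_of_pos_right _ (by positivity)
    linarith
  · intro X0
    rw [Filter.frequently_atTop] at hfreq
    obtain ⟨n, hn1, hn2⟩ := hfreq (l * (X0 + 1))
    have hn0 : 0 < n := lt_of_lt_of_le (by positivity) hn1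
    refine ⟨n / l, ?_, ?_⟩
    · rw [Nat.le_div_iff_mul_le hl]
      nlinarith
    · have h1 : l * (n / l) ≤ n := Nat.mul_div_le n l
      have h2 : r * (n / l) ≤ l * (n / l) := Nat.mul_le_mul_right _ hrl.le
      have h3 := cnt_le A F hF n d hn0 hn2
      have h4 : (cnt F (l * (n / l)) : ℝ) ≤ (1 - d) * n + 1 :=
        le_trans (by exact_mod_cast cnt_mono F (show l * (n / l) ≤ n + 1 by omega)) h3
      have h5 : (cnt F (r * (n / l)) : ℝ) ≤ (1 - d) * n + 1 :=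
        le_trans (by exact_mod_cast cnt_mono F (show r * (n / l) ≤ n + 1 by omega)) h3
      have h6 : (n : ℝ) ≤ l * (((n / l : ℕ) : ℝ) + 1) := by
        have := Nat.lt_mul_div_succ n hl
        exact_mod_cast this.le
      set X : ℝ := ((n / l : ℕ) : ℝ) with hX
      have h7 : (1 - d) * n + 1 ≤ (1 - d) * (l * (X + 1)) + 1 := by
        have := mul_le_mul_of_nonneg_left h6 (by linarith : (0 : ℝ) ≤ 1 - d)
        linarith
      calc (cnt F (l * (n / l)) : ℝ) / l + (cnt F (r * (n / l)) : ℝ) / r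
          ≤ ((1 - d) * (l * (X + 1)) + 1) / l + ((1 - d) * (l * (X + 1)) + 1) / r := by
            apply add_le_add
            · exact div_le_div_of_nonneg_right (h4.trans h7) hl'.le
            · exact div_le_div_of_nonneg_right (h5.trans h7) hr'.le
        _ = (1 - d) * (l + r) / r * X + (1 / l + 1 / r) * ((1 - d) * l + 1) := by
            field_simp
            ring

/-- positive lower density gap -/
theorem lower_bound (A F : Set ℕ) (hF : ∀ x ∈ F, x ∉ A) (θ : ℝ)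
    (hθ : θ < liminf (fun N : ℕ => ((A ∩ Set.Icc 1 N).ncard : ℝ) / N) atTop)
    (l r : ℕ) (hl : 0 < l) (hr : 0 < r) :
    ∃ κ K : ℝ, κ < 2 * (1 - θ) ∧
      ∀ X0 : ℕ, ∃ X : ℕ, X0 ≤ X ∧ (cnt F (l * X) : ℝ) / l + (cnt F (r * X) : ℝ) / r ≤ κ * X + K := by
  have hθ' : θ < liminf (ratio A) atTop := hθ
  have hl' : (0 : ℝ) < l := by exact_mod_cast hl
  have hr' : (0 : ℝ) < r := by exact_mod_cast hr
  obtain ⟨d, hd1, hd2⟩ := exists_between hθ'
  have hev : ∀ᶠ n in atTop, d < ratio A n := by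
    exact Filter.eventually_lt_of_lt_liminf hd2 (Filter.isBoundedUnder_of ⟨0, ratio_nonneg A⟩)
  refine ⟨2 * (1 - d), 1 / l + 1 / r, by linarith, ?_⟩
  intro X0
  rw [Filter.eventually_atTop] at hev
  obtain ⟨n0, hn0⟩ := hev
  refine ⟨X0 + n0 + 1, by omega, ?_⟩
  have key : ∀ k : ℕ, 0 < k → (cnt F (k * (X0 + n0 + 1)) : ℝ) ≤ (1 - d) * (k * ((X0 + n0 + 1 : ℕ) : ℝ)) + 1 := by
    intro k hk
    have h1 : n0 ≤ k * (X0 + n0 + 1) := by nlinarith
    have h2 : 0 < k * (X0 + n0 + 1) := by positivity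
    have h3 := cnt_le A F hF _ d h2 (hn0 _ h1)
    have h4 : (cnt F (k * (X0 + n0 + 1)) : ℝ) ≤ (cnt F (k * (X0 + n0 + 1) + 1) : ℝ) := by
      exact_mod_cast cnt_mono F (Nat.le_succ _)
    refine h4.trans (h3.trans (le_of_eq ?_))
    push_cast
    ring
  calc (cnt F (l * (X0 + n0 + 1)) : ℝ) / l + (cnt F (r * (X0 + n0 + 1)) : ℝ) / r
      ≤ ((1 - d) * (l * ((X0 + n0 + 1 : ℕ) : ℝ)) + 1) / l + ((1 - d) * (r * ((X0 + n0 + 1 : ℕ) : ℝ)) + 1) / r := by
        apply add_le_add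
        · exact div_le_div_of_nonneg_right (key l hl) hl'.le
        · exact div_le_div_of_nonneg_right (key r hr) hr'.le
    _ = 2 * (1 - d) * ((X0 + n0 + 1 : ℕ) : ℝ) + (1 / l + 1 / r) := by
        field_simp
        ring

/-- the core with a linear bound -/
theorem core (l r : ℕ) (hl : 0 < l) (hr : 0 < r) (F : Set ℕ) (c κ K : ℝ) (hc : 0 < c) (hκ : κ < c)
    (hX : ∀ X0 : ℕ, ∃ X : ℕ, X0 ≤ X ∧ (cnt F (l * X) : ℝ) / l + (cnt F (r * X) : ℝ) / r ≤ κ * X + K)
    (τ : Finset ℕ) (hτ : τ ⊆ Finset.range (l + r)) (hτc : (l + r) * c ≤ (τ.card : ℝ)) :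
    ∃ t ∈ τ, ∃ b : ℕ → ℕ, Function.Injective b ∧ (∀ i, 0 < b i) ∧
      ∀ i j, i ≠ j → r * b i + l * b j + t ∉ F := by
  have hδ : 0 < min ((c - κ) / 2) c := lt_min (by linarith) hc
  refine main_nat l r hl hr F c (min ((c - κ) / 2) c) hδ (min_le_right _ _) ?_ τ hτ hτc
  intro X0
  obtain ⟨X1, hX1⟩ := exists_nat_gt (K / ((c - κ) / 2))
  obtain ⟨X, h1, h2⟩ := hX (max X0 X1)
  refine ⟨X, (le_max_left _ _).trans h1, h2.trans ?_⟩
  have h3 : (X1 : ℝ) ≤ X := by exact_mod_cast (le_max_right _ _).trans h1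
  have h4 : K / ((c - κ) / 2) < X := hX1.trans_le h3
  rw [div_lt_iff₀ (by linarith)] at h4
  have h5 : (c - (c - κ) / 2) * X ≤ (c - min ((c - κ) / 2) c) * X := by
    apply mul_le_mul_of_nonneg_right _ (Nat.cast_nonneg _)
    linarith [min_le_left ((c - κ) / 2) c]
  refine le_trans ?_ h5
  nlinarith

/-- passing to a positive shift -/
theorem shift_pos (l r : ℕ) (hl : 0 < l) (A : Set ℕ) (t : ℕ) (b : ℕ → ℕ) (hb : Function.Injective b)
    (hA : ∀ i j, i ≠ j → r * b i + l * b j + t ∈ A) :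
    ∃ (B : Set ℕ) (t : ℕ), B.Infinite ∧ (∀ b ∈ B, 1 ≤ b) ∧ 1 ≤ t ∧
      ∀ b₁ ∈ B, ∀ b₂ ∈ B, b₁ ≠ b₂ → r * b₁ + l * b₂ + t ∈ A := by
  have hinf : (Set.range b \ {0, 1}).Infinite :=
    (Set.infinite_range_of_injective hb).sdiff (Set.toFinite _)
  refine ⟨(fun x => x - 1) '' (Set.range b \ {0, 1}), t + (l + r), ?_, ?_, by omega, ?_⟩
  · apply hinf.image
    intro x hx y hy hxy
    have h1 : x ≠ 0 := fun h => hx.2 (by simp [h])
    have h2 : y ≠ 0 := fun h => hy.2 (by simp [h])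
    have h3 : x - 1 = y - 1 := hxy
    omega
  · rintro _ ⟨x, hx, rfl⟩
    have h1 : x ≠ 0 := fun h => hx.2 (by simp [h])
    have h2 : x ≠ 1 := fun h => hx.2 (by simp [h])
    show 1 ≤ x - 1
    omega
  · rintro _ ⟨x, ⟨⟨i, rfl⟩, hx⟩, rfl⟩ _ ⟨y, ⟨⟨j, rfl⟩, hy⟩, rfl⟩ hne
    have h1 : b i ≠ 0 := fun h => hx (by simp [h])
    have h2 : b j ≠ 0 := fun h => hy (by simp [h])
    have hij : i ≠ j := by
      rintro rfl
      exact hne rfl
    have h3 := hA i j hij
    show r * (b i - 1) + l * (b j - 1) + (t + (l + r)) ∈ A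
    obtain ⟨p, hp⟩ := Nat.exists_eq_succ_of_ne_zero h1
    obtain ⟨q, hq⟩ := Nat.exists_eq_succ_of_ne_zero h2
    rw [hp, hq] at h3 ⊢
    have h4 : r * (p.succ - 1) + l * (q.succ - 1) + (t + (l + r)) = r * p.succ + l * q.succ + t := by
      simp only [Nat.succ_sub_one]
      simp only [Nat.succ_eq_add_one]
      ring
    rw [h4]
    exact h3

/-- passing to a residue class -/
theorem residue_class (l r : ℕ) (hl : 0 < l) (A : Set ℕ) (b : ℕ → ℕ) (hb : Function.Injective b)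
    (hb0 : ∀ i, 0 < b i)
    (hA : ∀ i j, i ≠ j → r * b i + l * b j + 0 ∉ {n : ℕ | (l + r) ∣ n ∧ n ∉ A}) :
    ∃ B : Set ℕ, B.Infinite ∧ (∀ b ∈ B, 1 ≤ b) ∧
      ∀ b₁ ∈ B, ∀ b₂ ∈ B, b₁ ≠ b₂ → r * b₁ + l * b₂ ∈ A := by
  have hN : 0 < l + r := by omega
  obtain ⟨y, hy⟩ := Finite.exists_infinite_fiber (fun i : ℕ => (⟨b i % (l + r), Nat.mod_lt _ hN⟩ : Fin (l + r)))
  rw [Set.infinite_coe_iff] at hy
  refine ⟨b '' ((fun i : ℕ => (⟨b i % (l + r), Nat.mod_lt _ hN⟩ : Fin (l + r))) ⁻¹' {y}),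
    hy.image hb.injOn, ?_, ?_⟩
  · rintro _ ⟨i, _, rfl⟩
    exact hb0 i
  · rintro _ ⟨i, hi, rfl⟩ _ ⟨j, hj, rfl⟩ hne
    have hij : i ≠ j := by
      rintro rfl
      exact hne rfl
    have h1 : b i % (l + r) = y := by
      have h : (⟨b i % (l + r), Nat.mod_lt _ hN⟩ : Fin (l + r)) = y := hi
      rw [← h]
    have h2 : b j % (l + r) = y := by
      have h : (⟨b j % (l + r), Nat.mod_lt _ hN⟩ : Fin (l + r)) = y := hj
      rw [← h]
    have h3 := hA i j hij
    rw [add_zero] at h3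
    by_contra h4
    apply h3
    refine ⟨?_, h4⟩
    have h5 : b i ≡ b j [MOD (l + r)] := h1.trans h2.symm
    have h6 : r * b i + l * b j ≡ r * b j + l * b j [MOD (l + r)] :=
      (h5.mul_left r).add_right _
    rw [← Nat.modEq_zero_iff_dvd]
    refine h6.trans ?_
    rw [Nat.modEq_zero_iff_dvd]
    exact ⟨b j, by ring⟩

end Pool.Agent.Q154.MS
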